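import Pool.Agent.H85.BR.Exit

/-!
# Tools: radial projection, linear algebra at a boundary point
-/

open Set Metric Filter Topology
open scoped ContDiff RealInnerProductSpace

noncomputable section

namespace Pool.Agent.W5h72.BR

variable {E : Type*} [NormedAddCommGroup E] [InnerProductSpace ℝ E]

/-- radial projection to the sphere -/
def proj (y : E) : E := ‖y‖⁻¹ • y

/-- its derivative -/
def Dproj (y : E) : E →L[ℝ] E :=
  ‖y‖⁻¹ • (ContinuousLinearMap.id ℝ E - (innerSL ℝ (proj y)).smulRight (proj y))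

lemma proj_mem {y : E} (hy : y ≠ 0) : proj y ∈ sphere (0 : E) 1 := by
  simp [proj, norm_smul, inv_mul_cancel₀ (norm_ne_zero_iff.2 hy)]

lemma proj_of_mem {p : E} (hp : p ∈ sphere (0 : E) 1) : proj p = p := by
  have : ‖p‖ = 1 := by simpa using hp
  simp [proj, this]

omit [InnerProductSpace ℝ E] in
lemma ne_zero_of_mem_sphere' {p : E} (hp : p ∈ sphere (0 : E) 1) : p ≠ 0 := by
  rintro rfl; simp at hp

lemma hasFDerivAt_norm' {y : E} (hy : y ≠ 0) :
    HasFDerivAt (fun y : E => ‖y‖) (‖y‖⁻¹ • innerSL ℝ y) y := by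
  have h1 := (hasStrictFDerivAt_norm_sq y).hasFDerivAt
  have h2 := h1.sqrt (by positivity)
  have h3 : (fun y : E => √(‖y‖ ^ 2)) = fun y => ‖y‖ := by
    ext z; exact Real.sqrt_sq (norm_nonneg z)
  rw [h3] at h2
  refine h2.congr_fderiv ?_
  ext w
  rw [Real.sqrt_sq (norm_nonneg y)]
  simp only [smul_apply, smul_eq_mul, innerSL_apply_apply, nsmul_eq_mul, Nat.cast_ofNat]
  have : ‖y‖ ≠ 0 := norm_ne_zero_iff.2 hy
  field_simp

lemma hasFDerivAt_proj {y : E} (hy : y ≠ 0) : HasFDerivAt (proj (E := E)) (Dproj y) y := by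
  have hn : ‖y‖ ≠ 0 := norm_ne_zero_iff.2 hy
  have h1 := HasDerivAt.comp_hasFDerivAt (f := fun y : E => ‖y‖) y (hasDerivAt_inv hn)
    (hasFDerivAt_norm' hy)
  have h2 := h1.smul (hasFDerivAt_id y)
  refine HasFDerivAt.congr_fderiv (f := proj (E := E)) h2 ?_
  ext w
  simp only [Dproj, proj, add_apply, smul_apply, sub_apply, ContinuousLinearMap.id_apply,
    ContinuousLinearMap.smulRight_apply, innerSL_apply_apply, inner_smul_left, neg_apply, id_eq,
    smul_eq_mul, smul_sub, smul_smul, RCLike.conj_to_real, Function.comp]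
  rw [sub_eq_add_neg, ← neg_smul]
  congr 2
  field_simp

lemma Dproj_apply {p : E} (hp : p ∈ sphere (0 : E) 1) {η : E} (hη : inner ℝ p η = 0) :
    Dproj p η = η := by
  have : ‖p‖ = 1 := by simpa using hp
  simp [Dproj, proj, this, hη]

lemma inner_Dproj {y : E} (hy : y ≠ 0) (w : E) : inner ℝ (proj y) (Dproj y w) = 0 := by
  have h1 : ‖proj y‖ = 1 := by simpa using proj_mem hy
  simp only [Dproj, smul_apply, sub_apply, ContinuousLinearMap.id_apply,
    ContinuousLinearMap.smulRight_apply, innerSL_apply_apply, inner_smul_right, inner_sub_right,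
    real_inner_self_eq_norm_sq, h1]
  ring

lemma exists_orth [FiniteDimensional ℝ E] (hn : 1 < Module.finrank ℝ E) (p : E) :
    ∃ ξ : E, ‖ξ‖ = 1 ∧ inner ℝ p ξ = 0 := by
  have h1 : 0 < Module.finrank ℝ (ℝ ∙ p)ᗮ := by
    have h2 := Submodule.finrank_add_finrank_orthogonal (ℝ ∙ p)
    have h3 : Module.finrank ℝ (ℝ ∙ p) ≤ 1 := by
      have := finrank_span_le_card (R := ℝ) ({p} : Set E)
      simpa using this
    omega
  have : Nontrivial (ℝ ∙ p)ᗮ := Module.finrank_pos_iff.1 h1
  obtain ⟨⟨v, hv⟩, hv0⟩ := exists_ne (0 : (ℝ ∙ p)ᗮ)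
  have hv1 : v ≠ 0 := fun h0 => hv0 (by simpa using h0)
  refine ⟨‖v‖⁻¹ • v, ?_, ?_⟩
  · rw [norm_smul, norm_inv, norm_norm, inv_mul_cancel₀ (norm_ne_zero_iff.2 hv1)]
  · rw [inner_smul_right, Submodule.mem_orthogonal_singleton_iff_inner_right.1 hv, mul_zero]

/-- representation of functionals by a definite form -/
lemma exists_rep [FiniteDimensional ℝ E] {B : E →L[ℝ] E →L[ℝ] ℝ}
    (hp : ∀ v, v ≠ 0 → 0 < B v v) (p : E) : ∃ n, ∀ w, B n w = inner ℝ p w := by
  let T : E →ₗ[ℝ] E :=
    { toFun := fun v => (InnerProductSpace.toDual ℝ E).symm (B v)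
      map_add' := fun v w => by simp
      map_smul' := fun c v => by simp }
  have hT : ∀ v, T v = (InnerProductSpace.toDual ℝ E).symm (B v) := fun v => rfl
  have hinj : Function.Injective T := by
    rw [injective_iff_map_eq_zero]
    intro v hv
    by_contra hv0
    rw [hT] at hv
    have h1 : B v = 0 := by
      have := congrArg (InnerProductSpace.toDual ℝ E) hv
      simpa using this
    have := hp v hv0
    rw [h1] at this
    simp at this
  obtain ⟨n, hn⟩ := (LinearMap.injective_iff_surjective.1 hinj) p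
  refine ⟨n, fun w => ?_⟩
  rw [hT] at hn
  rw [← hn, InnerProductSpace.toDual_symm_apply]

/-- the unit inward normal of a boundary point -/
lemma exists_normal [FiniteDimensional ℝ E] {B : E →L[ℝ] E →L[ℝ] ℝ}
    (hs : ∀ v w, B v w = B w v) (hp : ∀ v, v ≠ 0 → 0 < B v v) {p : E} (hp0 : p ≠ 0) :
    ∃ N, B N N = 1 ∧ inner ℝ p N < 0 ∧ (∀ η, inner ℝ p η = 0 → B N η = 0) ∧
      ∀ u, inner ℝ p (u - B u N • N) = 0 := by
  obtain ⟨n, hn⟩ := exists_rep hp p
  have hn0 : n ≠ 0 := by
    rintro rfl
    have := hn p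
    simp only [map_zero, zero_apply, real_inner_self_eq_norm_sq] at this
    exact hp0 (norm_eq_zero.1 (by nlinarith [sq_nonneg ‖p‖]))
  have hb := hp n hn0
  set β := √(B n n) with hβ
  have hβ0 : 0 < β := Real.sqrt_pos.2 hb
  have hβ2 : β * β = B n n := Real.mul_self_sqrt hb.le
  have hpn : inner ℝ p n = B n n := (hn n).symm
  refine ⟨(-β⁻¹) • n, ?_, ?_, ?_, ?_⟩
  · simp only [map_smul, smul_apply, smul_eq_mul]
    rw [← hβ2]; field_simp
  · rw [inner_smul_right, hpn, ← hβ2]
    have : -β⁻¹ * (β * β) = -β := by field_simp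
    rw [this]; linarith
  · intro η hη
    simp only [map_smul, smul_apply, smul_eq_mul, hn, hη, mul_zero]
  · intro u
    simp only [map_smul, smul_apply, smul_eq_mul, inner_sub_right, inner_smul_right, hpn]
    rw [hs u n, hn, ← hβ2]
    field_simp
    ring

lemma exists_A [FiniteDimensional ℝ E] {B B' : E →L[ℝ] E →L[ℝ] ℝ}
    (hs : ∀ v w, B v w = B w v) (hp : ∀ v, v ≠ 0 → 0 < B v v)
    (hs' : ∀ v w, B' v w = B' w v) (hp' : ∀ v, v ≠ 0 → 0 < B' v v) {p : E} (hp0 : p ≠ 0)
    (htan : ∀ η ζ, inner ℝ p η = 0 → inner ℝ p ζ = 0 → B η ζ = B' η ζ) :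
    ∃ A A' : E →L[ℝ] E, (∀ u, A' (A u) = u) ∧ (∀ u, A (A' u) = u) ∧
      ∀ u v, inner ℝ p u < 0 → inner ℝ p v < 0 → (∀ η, inner ℝ p η = 0 → B u η = B' v η) →
        B u u = B' v v → v = A u := by
  obtain ⟨N, hN1, hN2, hN3, hN4⟩ := exists_normal hs hp hp0
  obtain ⟨N', hN1', hN2', hN3', hN4'⟩ := exists_normal hs' hp' hp0
  have hBN : ∀ u, B N u = B u N := fun u => hs N u
  have hBN' : ∀ u, B' N' u = B' u N' := fun u => hs' N' u
  -- components along the normal
  have hc' : ∀ u, B' (u - B u N • N) N' = 0 := by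
    intro u
    rw [hs', hN3' _ (hN4 u)]
  have hc : ∀ u, B (u - B' u N' • N') N = 0 := by
    intro u
    rw [hs, hN3 _ (hN4' u)]
  have hν : ∀ u, B' (u + B u N • (N' - N)) N' = B u N := by
    intro u
    have h1 : u + B u N • (N' - N) = (u - B u N • N) + B u N • N' := by
      rw [smul_sub]; abel
    rw [h1, map_add, add_apply, hc' u, map_smul, smul_apply, hN1']
    simp
  have hν' : ∀ u, B (u + B' u N' • (N - N')) N = B' u N' := by
    intro u
    have h1 : u + B' u N' • (N - N') = (u - B' u N' • N') + B' u N' • N := by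
      rw [smul_sub]; abel
    rw [h1, map_add, add_apply, hc u, map_smul, smul_apply, hN1]
    simp
  have hpos_of_inward : ∀ u, inner ℝ p u < 0 → 0 < B u N := by
    intro u hu
    have h1 := hN4 u
    rw [inner_sub_right, inner_smul_right] at h1
    by_contra hcon
    push Not at hcon
    nlinarith [mul_nonneg_of_nonpos_of_nonpos hcon hN2.le]
  have hpos_of_inward' : ∀ u, inner ℝ p u < 0 → 0 < B' u N' := by
    intro u hu
    have h1 := hN4' u
    rw [inner_sub_right, inner_smul_right] at h1
    by_contra hcon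
    push Not at hcon
    nlinarith [mul_nonneg_of_nonpos_of_nonpos hcon hN2'.le]
  let A : E →L[ℝ] E := ContinuousLinearMap.id ℝ E + (B N).smulRight (N' - N)
  let A' : E →L[ℝ] E := ContinuousLinearMap.id ℝ E + (B' N').smulRight (N - N')
  have hA : ∀ u, A u = u + B u N • (N' - N) := by
    intro u; simp [A, hBN]
  have hA' : ∀ u, A' u = u + B' u N' • (N - N') := by
    intro u; simp [A', hBN']
  refine ⟨A, A', ?_, ?_, ?_⟩
  · intro u
    rw [hA', hA, hν]
    rw [add_assoc, ← smul_add]; simp
  · intro u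
    rw [hA, hA', hν']
    rw [add_assoc, ← smul_add]; simp
  · intro u v hu hv h1 h2
    set w := A u with hw
    have hwN : B' w N' = B u N := by rw [hw, hA, hν]
    have hw1 : w = (u - B u N • N) + B u N • N' := by
      rw [hw, hA, smul_sub]; abel
    -- tangential parts
    have h3 : ∀ η, inner ℝ p η = 0 → B' w η = B' v η := by
      intro η hη
      rw [hw1, map_add, add_apply, map_smul, smul_apply, hN3' η hη, smul_zero, add_zero,
        ← htan _ _ (hN4 u) hη, ← h1 η hη, map_sub, sub_apply, map_smul, smul_apply, hN3 η hη,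
        smul_zero, sub_zero]
    -- energies
    have h4 : B' w w = B u u := by
      have e1 : B' w w = B' (u - B u N • N) (u - B u N • N) + B u N ^ 2 := by
        conv_lhs => rw [hw1]
        have a1 := hc' u
        have a2 : B' N' (u - B u N • N) = 0 := hN3' _ (hN4 u)
        generalize u - B u N • N = z at a1 a2 ⊢
        simp only [map_add, map_smul, add_apply, smul_apply, smul_eq_mul, a1, a2, hN1']
        ring
      rw [e1, ← htan _ _ (hN4 u) (hN4 u)]
      simp only [map_sub, map_smul, sub_apply, smul_apply, smul_eq_mul, hN1, hBN]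
      ring
    set c := B' (v - w) N' with hcdef
    have h5 : inner ℝ p (v - w - c • N') = 0 := hN4' (v - w)
    have h6 : v - w - c • N' = 0 := by
      by_contra hne
      have h7 := hp' _ hne
      have h8 : ∀ z, inner ℝ p z = 0 → B' (v - w - c • N') z = 0 := by
        intro z hz
        rw [map_sub, sub_apply, map_smul, smul_apply, hN3' _ hz, smul_zero, sub_zero, map_sub,
          sub_apply, h3 _ hz, sub_self]
      rw [h8 _ h5] at h7
      exact lt_irrefl _ h7
    have h9 : v = w + c • N' := by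
      rw [sub_eq_zero] at h6
      rw [← h6]; abel
    have h10 : B' v v = B' w w + 2 * c * B' w N' + c ^ 2 := by
      rw [h9]
      simp only [map_add, map_smul, add_apply, smul_apply, smul_eq_mul, hN1', hBN']
      ring
    have h11 : B' v N' = B' w N' + c := by
      rw [h9]
      simp only [map_add, map_smul, add_apply, smul_apply, smul_eq_mul, hN1', mul_one]
    have h12 := hpos_of_inward u hu
    have h13 := hpos_of_inward' v hv
    have h14 : c * (2 * B' w N' + c) = 0 := by
      have : B' v v = B' w w := by rw [h4, ← h2]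
      rw [h10] at this
      linarith
    have h15 : c = 0 := by
      rcases mul_eq_zero.1 h14 with h | h
      · exact h
      · rw [hwN] at h h11; linarith
    rw [h9, h15, zero_smul, add_zero]

end Pool.Agent.W5h72.BR
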