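import Pool.Agent.H85.BR.Pair

/-!
# Isometries preserve the geodesics
-/

open Set Metric Filter Topology
open scoped ContDiff RealInnerProductSpace

noncomputable section

namespace Pool.Agent.W5h72.BR

variable {E : Type*} [NormedAddCommGroup E] [InnerProductSpace ℝ E]

namespace Simple

variable {g g' : E → E →L[ℝ] E →L[ℝ] ℝ} {e L e' L' : E → E → E}

lemma rho_le_length (h : Simple g e L) {a b : E} {c c' : ℝ → E}
    (ha : a ∈ closedBall (0 : E) 1) (hc : IsCurve c c' a b) : rho g L a b ≤ length g c c' := by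
  have := h.rho_sub_le_length ha hc
  rwa [h.rho_self ha, sub_zero] at this

/-- isometries do not increase distances -/
lemma rho_isometry (h : Simple g e L) (h' : Simple g' e' L') {ψ : E → E}
    (hψ : ContDiff ℝ ∞ ψ) (hψM : ∀ x ∈ closedBall (0 : E) 1, ψ x ∈ closedBall (0 : E) 1)
    (hiso : ∀ x ∈ closedBall (0 : E) 1, ∀ v w,
      g' (ψ x) (fderiv ℝ ψ x v) (fderiv ℝ ψ x w) = g x v w)
    {x y : E} (hx : x ∈ closedBall (0 : E) 1) (hy : y ∈ closedBall (0 : E) 1) :
    rho g' L' (ψ x) (ψ y) ≤ rho g L x y := by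
  obtain ⟨γ, u, hγ, h0, hu, h1⟩ := h.exists_geod hx hy
  have hc := isCurve_geod hγ
  rw [h0, h1] at hc
  have hlen := h.length_geod hγ
  rw [h0, h1] at hlen
  have hψc : IsCurve (fun t => ψ (γ t)) (fun t => fderiv ℝ ψ (γ t) (u t)) (ψ x) (ψ y) := by
    refine ⟨fun t ht => hψM _ (hc.mem t ht), fun t ht => ?_, ?_, by simp only [h0],
      by simp only [h1]⟩
    · exact HasFDerivAt.comp_hasDerivWithinAt (f := γ) (l := ψ) t
        ((hψ.differentiable (by simp) (γ t)).hasFDerivAt) (hc.der t ht)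
    · have h2 : Continuous (fderiv ℝ ψ) := hψ.continuous_fderiv (by simp)
      have h3 : ContinuousOn γ (Icc 0 1) := fun t ht => (hc.der t ht).continuousWithinAt
      exact (h2.comp_continuousOn h3).clm_apply hc.cont
  have h2 := h'.rho_le_length (hψM x hx) hψc
  refine h2.trans (le_of_eq ?_)
  rw [← hlen]
  apply intervalIntegral.integral_congr
  intro t ht
  rw [uIcc_of_le zero_le_one] at ht
  simp only
  rw [hiso _ (hc.mem t ht)]

variable [FiniteDimensional ℝ E]

/-- equality in the triangle inequality -/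
lemma mem_seg_of_rho (h : Simple g e L) {p q z : E} (hp : p ∈ sphere (0 : E) 1)
    (hq : q ∈ sphere (0 : E) 1) (hz : ‖z‖ < 1) (heq : rho g L p z + rho g L q z ≤ rho g L p q) :
    z ∈ seg g p q := by
  have hpM := mem_of_sphere hp
  have hqM := mem_of_sphere hq
  have hzM := mem_of_norm_lt hz
  have hpz : p ≠ z := (ne_of_sphere hz hp).symm
  have hqz : q ≠ z := (ne_of_sphere hz hq).symm
  have d1 := h.hasFDerivAt_rho hpM hzM hpz
  have d2 := h.hasFDerivAt_rho hqM hzM hqz
  have hmin : IsLocalMin (fun y => rho g L p y + rho g L q y) z := by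
    filter_upwards [isOpen_ball.mem_nhds (show z ∈ ball (0 : E) 1 by simpa using hz)] with y hy
    have hyM := ball_subset_closedBall hy
    have h1 := h.triangle hpM hyM hqM
    rw [h.rho_symm hyM hqM] at h1
    exact heq.trans h1
  have h0 := hmin.hasFDerivAt_eq_zero (d1.add d2)
  have r1 := h.rho_pos hpM hzM hpz
  have r2 := h.rho_pos hqM hzM hqz
  set a := rho g L p z with ha
  set b := rho g L q z with hb
  -- `L z q` is a negative multiple of `L z p`
  have h1 : a⁻¹ • L z p + b⁻¹ • L z q = 0 := by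
    by_contra hne
    have h2 := h.pos z hzM _ hne
    have h3 := congrArg (fun f : E →L[ℝ] ℝ => f (a⁻¹ • L z p + b⁻¹ • L z q)) h0
    have h4 : ∀ w, g z (a⁻¹ • L z p + b⁻¹ • L z q) w =
        a⁻¹ * g z (L z p) w + b⁻¹ * g z (L z q) w := by
      intro w
      rw [map_add, add_apply, map_smul, map_smul]
      rfl
    rw [h4] at h2
    simp only [add_apply, smul_apply, smul_eq_mul, zero_apply] at h3
    linarith
  have h2 : L z q = (-(b / a)) • L z p := by
    have h3 : b • (a⁻¹ • L z p + b⁻¹ • L z q) = 0 := by rw [h1, smul_zero]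
    rw [smul_add, smul_smul, smul_smul, mul_inv_cancel₀ r2.ne', one_smul] at h3
    rw [neg_smul, div_eq_mul_inv]
    exact (neg_eq_of_add_eq_zero_right h3).symm
  obtain ⟨q1, hq1, t, ht, hz1, hz2⟩ := h.exit_seg hpM hz hpz
  have hq1M := mem_of_sphere hq1
  have hzq1 : z ≠ q1 := ne_of_sphere hz hq1
  have ht' := Ioo_subset_Icc_self ht
  obtain ⟨γ, u, hγ, c0, cu, c1⟩ := h.exists_geod hpM hq1M
  have hzt : z = γ t := by
    rw [h.geod_eq hγ ht', c0, cu]; exact hz1
  have l1 := h.L_geod hγ ht' zero_mem01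
  have l2 := h.L_geod hγ ht' one_mem01
  rw [← hzt, c0] at l1
  rw [← hzt, c1] at l2
  have ht0 : t ≠ 0 := ht.1.ne'
  have ht1 : (1 - t) ≠ 0 := by linarith [ht.2]
  have h3 : L z q = (b / a * t / (1 - t)) • L z q1 := by
    rw [h2, l1, l2, smul_smul, smul_smul]
    congr 1
    field_simp
    ring
  have hpos : 0 < b / a * t / (1 - t) := by
    have := ht.1
    have := ht.2
    have h4 : 0 < 1 - t := by linarith
    positivity
  have hqq : q = q1 := h.exit_unique hzM hq1 hq hzq1 hqz.symm hpos h3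
  subst hqq
  exact (h.mem_seg hpM hqM).2 ⟨t, ht', hz1⟩

/-- boundary fixing isometries preserve the geodesics -/
lemma seg_isometry (h : Simple g e L) (h' : Simple g' e' L')
    {ψ χ : E → E}
    (hψ : ContDiff ℝ ∞ ψ) (hψM : ∀ x ∈ closedBall (0 : E) 1, ψ x ∈ closedBall (0 : E) 1)
    (hχψ : ∀ x ∈ closedBall (0 : E) 1, χ (ψ x) = x)
    (hψS : ∀ p ∈ sphere (0 : E) 1, ψ p = p)
    (hiso : ∀ x ∈ closedBall (0 : E) 1, ∀ v w,
      g' (ψ x) (fderiv ℝ ψ x v) (fderiv ℝ ψ x w) = g x v w)
    (hd : ∀ p ∈ sphere (0 : E) 1, ∀ q ∈ sphere (0 : E) 1, rho g L p q = rho g' L' p q)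
    {p q z : E} (hp : p ∈ sphere (0 : E) 1) (hq : q ∈ sphere (0 : E) 1)
    (hz : z ∈ seg g p q) : ψ z ∈ seg g' p q := by
  have hpM := mem_of_sphere hp
  have hqM := mem_of_sphere hq
  have hzM := seg_subset hz
  by_cases hzp : z = p
  · rw [hzp, hψS p hp]
    exact h'.left_mem_seg hpM hqM
  by_cases hzq : z = q
  · rw [hzq, hψS q hq, seg_symm]
    exact h'.left_mem_seg hqM hpM
  have hzb := h.seg_interior hpM hqM hz hzp hzq
  have hψb : ‖ψ z‖ < 1 := by
    refine lt_of_le_of_ne (by simpa using hψM z hzM) fun hb => ?_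
    have hS : ψ z ∈ sphere (0 : E) 1 := by simpa using hb
    have h1 := hψS _ hS
    have h2 := hχψ _ (mem_of_sphere hS)
    rw [h1, hχψ z hzM] at h2
    rw [← h2] at hb
    linarith
  refine h'.mem_seg_of_rho hp hq hψb ?_
  have h1 := h.rho_isometry h' hψ hψM hiso hpM hzM
  have h2 := h.rho_isometry h' hψ hψM hiso hqM hzM
  rw [hψS p hp] at h1
  rw [hψS q hq] at h2
  have h3 := h.rho_add hpM hqM hz
  rw [h.rho_symm hzM hpM, h.rho_symm hzM hqM, hd p hp q hq] at h3
  linarith

end Simple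

end Pool.Agent.W5h72.BR
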