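import Pool.Agent.H85.BR.Near

/-!
# Criteria for isometry
-/

open Set Metric Filter Topology
open scoped ContDiff RealInnerProductSpace

noncomputable section

set_option maxSynthPendingDepth 3

namespace Pool.Agent.W5h72.BR

variable {E : Type*} [NormedAddCommGroup E] [InnerProductSpace ℝ E]

/-- `g` is a simple metric on the closed unit ball -/
def IsSimple (g : E → E →L[ℝ] E →L[ℝ] ℝ) : Prop := ∃ e L : E → E → E, Simple g e L

/-- there is a diffeomorphism `ψ` of the closed unit ball (with inverse `χ`) such that `ψ` is the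
identity on the boundary and `ψ^* g' = g` -/
def BoundaryIsometric (g g' : E → E →L[ℝ] E →L[ℝ] ℝ) : Prop :=
  ∃ ψ χ : E → E, ContDiff ℝ ∞ ψ ∧ ContDiff ℝ ∞ χ ∧
    (∀ x ∈ closedBall (0 : E) 1, ψ x ∈ closedBall (0 : E) 1 ∧ χ (ψ x) = x) ∧
    (∀ y ∈ closedBall (0 : E) 1, χ y ∈ closedBall (0 : E) 1 ∧ ψ (χ y) = y) ∧
    (∀ p ∈ sphere (0 : E) 1, ψ p = p) ∧
    ∀ x ∈ closedBall (0 : E) 1, ∀ v w,
      g' (ψ x) (fderiv ℝ ψ x v) (fderiv ℝ ψ x w) = g x v w

/-- whenever the `g`-geodesics `pq` and `rs` meet, the `g'`-geodesics `pq` and `rs` meet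
(`p`, `q`, `r`, `s` are boundary points) -/
def MeetingPreserved (g g' : E → E →L[ℝ] E →L[ℝ] ℝ) : Prop :=
  ∀ p ∈ sphere (0 : E) 1, ∀ q ∈ sphere (0 : E) 1, ∀ r ∈ sphere (0 : E) 1, ∀ s ∈ sphere (0 : E) 1,
    (seg g p q ∩ seg g r s).Nonempty → (seg g' p q ∩ seg g' r s).Nonempty

/-- the same for geodesics which are close to each other: each pair `p ≠ q` of boundary points has a
`δ > 0` such that this holds if the end points of the two geodesics are `δ`-close to `p` and `q` -/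
def NearMeetingPreserved (g g' : E → E →L[ℝ] E →L[ℝ] ℝ) : Prop :=
  ∀ p ∈ sphere (0 : E) 1, ∀ q ∈ sphere (0 : E) 1, p ≠ q → ∃ δ > 0,
    ∀ p1 ∈ sphere (0 : E) 1, ∀ q1 ∈ sphere (0 : E) 1, ∀ p2 ∈ sphere (0 : E) 1,
    ∀ q2 ∈ sphere (0 : E) 1, ‖p1 - p‖ < δ → ‖p2 - p‖ < δ → ‖q1 - q‖ < δ → ‖q2 - q‖ < δ →
      (seg g p1 q1 ∩ seg g p2 q2).Nonempty → (seg g' p1 q1 ∩ seg g' p2 q2).Nonempty

/-- the difference `d_{g'}(y, ·) - d_g(x, ·)` of distance functions on the boundary, extended to the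
complement of the origin to be constant on the rays -/
def bdiff (g g' : E → E →L[ℝ] E →L[ℝ] ℝ) (x y z : E) : ℝ :=
  gdist g' y (‖z‖⁻¹ • z) - gdist g x (‖z‖⁻¹ • z)

/-- for each interior point `x` and each boundary point `p` there is an interior point `y` such that
the restrictions of `d_{g'}(y, ·)` and `d_g(x, ·)` to the boundary have the same differential and
the same Hessian at `p` -/
def JetsAgree (g g' : E → E →L[ℝ] E →L[ℝ] ℝ) : Prop :=
  ∀ x : E, ‖x‖ < 1 → ∀ p ∈ sphere (0 : E) 1, ∃ y : E, ‖y‖ < 1 ∧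
    fderiv ℝ (bdiff g g' x y) p = 0 ∧ fderiv ℝ (fderiv ℝ (bdiff g g' x y)) p = 0

/-- the same with `y` depending also on the direction `ξ` -/
def DirectionalJetsAgree (g g' : E → E →L[ℝ] E →L[ℝ] ℝ) : Prop :=
  ∀ x : E, ‖x‖ < 1 → ∀ p ∈ sphere (0 : E) 1, ∀ ξ : E, inner ℝ p ξ = 0 → ∃ y : E, ‖y‖ < 1 ∧
    fderiv ℝ (bdiff g g' x y) p = 0 ∧ fderiv ℝ (fderiv ℝ (bdiff g g' x y)) p ξ = 0

namespace Simple

variable {g g' : E → E →L[ℝ] E →L[ℝ] ℝ} {e L e' L' : E → E → E}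

lemma bdiff_eq (h : Simple g e L) (h' : Simple g' e' L') {x y z : E}
    (hx : x ∈ closedBall (0 : E) 1) (hy : y ∈ closedBall (0 : E) 1) (hz : z ≠ 0) :
    bdiff g g' x y z = rho g' L' y (proj z) - rho g L x (proj z) := by
  have hM := mem_of_sphere (proj_mem hz)
  rw [bdiff, ← h.gdist_eq hx hM, ← h'.gdist_eq hy hM]
  rfl

lemma bdiff_ev (h : Simple g e L) (h' : Simple g' e' L') {x y p : E}
    (hx : x ∈ closedBall (0 : E) 1) (hy : y ∈ closedBall (0 : E) 1) (hp0 : p ≠ 0) :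
    bdiff g g' x y =ᶠ[𝓝 p] (fun z => rho g' L' y (proj z)) - fun z => rho g L x (proj z) := by
  filter_upwards [isOpen_compl_singleton.mem_nhds (show p ∈ ({0}ᶜ : Set E) from hp0)] with z hz
  exact h.bdiff_eq h' hx hy hz

lemma fderiv_bdiff (h : Simple g e L) (h' : Simple g' e' L') {x y p : E}
    (hx : ‖x‖ < 1) (hy : ‖y‖ < 1) (hp : p ∈ sphere (0 : E) 1) :
    fderiv ℝ (bdiff g g' x y) p = Phi g g' L L' x (y, p) ∧
      fderiv ℝ (fderiv ℝ (bdiff g g' x y)) p = Q g' L' p y - Q g L p x := by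
  have hp0 := ne_zero_of_mem_sphere' hp
  have hpp := proj_of_mem hp
  have c1 : ContDiffAt ℝ ∞ (fun z => rho g' L' y (proj z)) p :=
    h'.contDiffAt_rho_proj' (mem_of_norm_lt hy) hp0 (by rw [hpp]; exact ne_of_sphere hy hp)
  have c2 : ContDiffAt ℝ ∞ (fun z => rho g L x (proj z)) p :=
    h.contDiffAt_rho_proj' (mem_of_norm_lt hx) hp0 (by rw [hpp]; exact ne_of_sphere hx hp)
  have h1 := h.bdiff_ev h' (mem_of_norm_lt hx) (mem_of_norm_lt hy) hp0
  have h2 : fderiv ℝ (bdiff g g' x y) =ᶠ[𝓝 p]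
      fderiv ℝ (fun z => rho g' L' y (proj z)) - fderiv ℝ (fun z => rho g L x (proj z)) := by
    filter_upwards [h1.eventuallyEq_nhds, ev_diff c1, ev_diff c2] with z k1 k2 k3
    rw [k1.fderiv_eq, fderiv_sub k2 k3]
    rfl
  constructor
  · rw [h2.self_of_nhds]
    rfl
  · rw [h2.fderiv_eq, fderiv_sub
      ((c1.fderiv_right (m := ∞) (by simp)).differentiableAt (by simp))
      ((c2.fderiv_right (m := ∞) (by simp)).differentiableAt (by simp))]
    rfl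

variable [FiniteDimensional ℝ E]

lemma rho_eq_of_isometry (h : Simple g e L) (h' : Simple g' e' L') {ψ : E → E}
    (hψ : ContDiff ℝ ∞ ψ) (hψM : ∀ x ∈ closedBall (0 : E) 1, ψ x ∈ closedBall (0 : E) 1)
    (hψS : ∀ p ∈ sphere (0 : E) 1, ψ p = p)
    (hiso : ∀ x ∈ closedBall (0 : E) 1, ∀ v w,
      g' (ψ x) (fderiv ℝ ψ x v) (fderiv ℝ ψ x w) = g x v w)
    (hd : ∀ p ∈ sphere (0 : E) 1, ∀ q ∈ sphere (0 : E) 1, rho g L p q = rho g' L' p q)
    {x p : E} (hx : ‖x‖ < 1) (hp : p ∈ sphere (0 : E) 1) :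
    rho g' L' (ψ x) p = rho g L x p := by
  have hxM := mem_of_norm_lt hx
  have hpM := mem_of_sphere hp
  obtain ⟨q, hq, hpq, hxq⟩ := h.exists_exit hp hx
  have hqM := mem_of_sphere hq
  have h1 := h.rho_isometry h' hψ hψM hiso hxM hpM
  have h2 := h.rho_isometry h' hψ hψM hiso hxM hqM
  rw [hψS p hp] at h1
  rw [hψS q hq] at h2
  have h3 := h.rho_add hpM hqM hxq
  have h4 := h'.triangle hpM (hψM x hxM) hqM
  rw [h'.rho_symm hpM (hψM x hxM), ← hd p hp q hq] at h4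
  linarith

theorem jets_of_isometric (h : Simple g e L) (h' : Simple g' e' L') (hψ : BoundaryIsometric g g')
    (hd : ∀ p ∈ sphere (0 : E) 1, ∀ q ∈ sphere (0 : E) 1, rho g L p q = rho g' L' p q) :
    JetsAgree g g' := by
  obtain ⟨ψ, χ, hψs, -, hψM, -, hψS, hiso⟩ := hψ
  intro x hx p hp
  have hxM := mem_of_norm_lt hx
  have hp0 := ne_zero_of_mem_sphere' hp
  have hψb : ‖ψ x‖ < 1 := by
    refine lt_of_le_of_ne (by simpa using (hψM x hxM).1) fun hb => ?_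
    have hS : ψ x ∈ sphere (0 : E) 1 := by simpa using hb
    have h1 := hψS _ hS
    have h2 := (hψM _ (mem_of_sphere hS)).2
    rw [h1, (hψM x hxM).2] at h2
    rw [← h2] at hb
    linarith
  have h1 : ∀ z : E, z ≠ 0 → bdiff g g' x (ψ x) z = 0 := by
    intro z hz
    rw [h.bdiff_eq h' hxM (hψM x hxM).1 hz,
      h.rho_eq_of_isometry h' hψs (fun x hx => (hψM x hx).1) hψS hiso hd hx (proj_mem hz),
      sub_self]
  have h2 : bdiff g g' x (ψ x) =ᶠ[𝓝 p] fun _ => 0 := by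
    filter_upwards [isOpen_compl_singleton.mem_nhds (show p ∈ ({0}ᶜ : Set E) from hp0)] with z hz
    exact h1 z hz
  have h3 : fderiv ℝ (bdiff g g' x (ψ x)) =ᶠ[𝓝 p] fun _ => 0 := by
    filter_upwards [h2.eventuallyEq_nhds] with z hz
    rw [hz.fderiv_eq]
    simp
  refine ⟨ψ x, hψb, h3.self_of_nhds, ?_⟩
  rw [h3.fderiv_eq]
  simp

theorem isometric_of_kernel (h : Simple g e L) (h' : Simple g' e' L')
    (hn : 2 < Module.finrank ℝ E)
    (hd : ∀ p ∈ sphere (0 : E) 1, ∀ q ∈ sphere (0 : E) 1, rho g L p q = rho g' L' p q)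
    (hK : ∀ x : E, ‖x‖ < 1 → ∀ p ∈ sphere (0 : E) 1, ∀ ξ, inner ℝ p ξ = 0 → ξ ≠ 0 →
      ∃ y : E, ‖y‖ < 1 ∧ Gam g g' x p y ∧ ∀ ζ, Q g' L' p y ξ ζ = Q g L p x ξ ζ) :
    BoundaryIsometric g g' :=
  h.isometry_of_conc h' (lt_trans one_lt_two hn) hd fun x hx =>
    h.conc_of_kernel h' hn hd hx (hK x hx)

theorem isometric_of_jets (h : Simple g e L) (h' : Simple g' e' L')
    (hn : 2 < Module.finrank ℝ E)
    (hd : ∀ p ∈ sphere (0 : E) 1, ∀ q ∈ sphere (0 : E) 1, rho g L p q = rho g' L' p q)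
    (hJ : DirectionalJetsAgree g g') : BoundaryIsometric g g' := by
  refine h.isometric_of_kernel h' hn hd fun x hx p hp ξ hξ _ => ?_
  obtain ⟨y, hy, h1, h2⟩ := hJ x hx p hp ξ hξ
  obtain ⟨k1, k2⟩ := h.fderiv_bdiff h' hx hy hp
  rw [k1] at h1
  rw [k2] at h2
  refine ⟨y, hy, h.gam_of_Phi h' hd hx hy hp h1, fun ζ => ?_⟩
  have h3 := congrArg (fun f : E →L[ℝ] ℝ => f ζ) h2
  simp only [sub_apply, zero_apply] at h3
  linarith

theorem isometric_of_near (h : Simple g e L) (h' : Simple g' e' L')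
    (hn : 2 < Module.finrank ℝ E)
    (hd : ∀ p ∈ sphere (0 : E) 1, ∀ q ∈ sphere (0 : E) 1, rho g L p q = rho g' L' p q)
    (hN : NearMeetingPreserved g g') : BoundaryIsometric g g' :=
  h.isometric_of_kernel h' hn hd fun _ hx _ hp _ hξ hξ0 =>
    h.kernel_of_near h' hd hN hx hp hξ hξ0

theorem meeting_of_isometric (h : Simple g e L) (h' : Simple g' e' L')
    (hψ : BoundaryIsometric g g')
    (hd : ∀ p ∈ sphere (0 : E) 1, ∀ q ∈ sphere (0 : E) 1, rho g L p q = rho g' L' p q) :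
    MeetingPreserved g g' := by
  obtain ⟨ψ, χ, hψs, -, hψM, -, hψS, hiso⟩ := hψ
  rintro p hp q hq r hr s hs ⟨z, hz1, hz2⟩
  exact ⟨ψ z,
    h.seg_isometry h' hψs (fun x hx => (hψM x hx).1) (fun x hx => (hψM x hx).2) hψS hiso hd
      hp hq hz1,
    h.seg_isometry h' hψs (fun x hx => (hψM x hx).1) (fun x hx => (hψM x hx).2) hψS hiso hd
      hr hs hz2⟩

end Simple

/-- **Criteria for isometry** -/
theorem criteria [FiniteDimensional ℝ E] (hn : 2 < Module.finrank ℝ E)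
    {g g' : E → E →L[ℝ] E →L[ℝ] ℝ} (hg : IsSimple g) (hg' : IsSimple g')
    (hd : ∀ p ∈ sphere (0 : E) 1, ∀ q ∈ sphere (0 : E) 1, gdist g p q = gdist g' p q) :
    List.TFAE [BoundaryIsometric g g', MeetingPreserved g g', NearMeetingPreserved g g',
      JetsAgree g g', DirectionalJetsAgree g g'] := by
  obtain ⟨e, L, h⟩ := hg
  obtain ⟨e', L', h'⟩ := hg'
  have hd' : ∀ p ∈ sphere (0 : E) 1, ∀ q ∈ sphere (0 : E) 1, rho g L p q = rho g' L' p q := by
    intro p hp q hq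
    rw [← h.gdist_eq (mem_of_sphere hp) (mem_of_sphere hq),
      ← h'.gdist_eq (mem_of_sphere hp) (mem_of_sphere hq), hd p hp q hq]
  tfae_have 1 → 2 := fun hψ => h.meeting_of_isometric h' hψ hd'
  tfae_have 2 → 3 := fun hm p _ q _ _ => ⟨1, one_pos, fun p1 hp1 q1 hq1 p2 hp2 q2 hq2 _ _ _ _ hne =>
    hm p1 hp1 q1 hq1 p2 hp2 q2 hq2 hne⟩
  tfae_have 3 → 1 := fun hN => h.isometric_of_near h' hn hd' hN
  tfae_have 1 → 4 := fun hψ => h.jets_of_isometric h' hψ hd'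
  tfae_have 4 → 5 := fun hJ x hx p hp ξ _ => by
    obtain ⟨y, hy, h1, h2⟩ := hJ x hx p hp
    exact ⟨y, hy, h1, by rw [h2]; rfl⟩
  tfae_have 5 → 1 := fun hJ => h.isometric_of_jets h' hn hd' hJ
  tfae_finish

end Pool.Agent.W5h72.BR
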