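import Pool.Agent.H85.BR.Basic

/-!
# The distance function of a simple metric
-/

open Set Metric Filter Topology
open scoped ContDiff RealInnerProductSpace

noncomputable section

namespace Pool.Agent.W5h72.BR

variable {E : Type*} [NormedAddCommGroup E] [InnerProductSpace ℝ E]

/-- `c : [0, 1] → M` is a `C¹` curve from `x` to `y` with derivative `c'`. -/
structure IsCurve (c c' : ℝ → E) (x y : E) : Prop where
  mem : ∀ t ∈ Icc (0 : ℝ) 1, c t ∈ closedBall (0 : E) 1
  der : ∀ t ∈ Icc (0 : ℝ) 1, HasDerivWithinAt c (c' t) (Icc 0 1) t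
  cont : ContinuousOn c' (Icc 0 1)
  start : c 0 = x
  finish : c 1 = y

/-- the length of a curve -/
def length (g : E → E →L[ℝ] E →L[ℝ] ℝ) (c c' : ℝ → E) : ℝ :=
  ∫ t in (0 : ℝ)..1, √(g (c t) (c' t) (c' t))

/-- the Riemannian distance of `x` and `y` in `M`: the infimum of the lengths of the `C¹` curves in
`M` from `x` to `y` -/
def gdist (g : E → E →L[ℝ] E →L[ℝ] ℝ) (x y : E) : ℝ :=
  sInf {l | ∃ c c', IsCurve c c' x y ∧ l = length g c c'}

/-- `|L x y|` -/
def rho (g : E → E →L[ℝ] E →L[ℝ] ℝ) (L : E → E → E) (x y : E) : ℝ := √(g x (L x y) (L x y))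

/-- Cauchy-Schwarz -/
lemma cs {B : E →L[ℝ] E →L[ℝ] ℝ} (hs : ∀ v w, B v w = B w v) (hp : ∀ v, v ≠ 0 → 0 < B v v)
    (v w : E) : |B v w| ≤ √(B v v) * √(B w w) := by
  by_cases hw : w = 0
  · subst hw; simp
  have hww := hp w hw
  have h0 : 0 ≤ B (B w w • v - B v w • w) (B w w • v - B v w • w) := by
    by_cases h : B w w • v - B v w • w = 0
    · rw [h]; simp
    · exact (hp _ h).le
  have h1 : B (B w w • v - B v w • w) (B w w • v - B v w • w) =
      B w w * (B w w * B v v - B v w ^ 2) := by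
    simp only [map_sub, map_smul, sub_apply, smul_apply, smul_eq_mul]
    rw [hs w v]; ring
  rw [h1] at h0
  have h2 : 0 ≤ B w w * B v v - B v w ^ 2 := nonneg_of_mul_nonneg_right h0 hww
  rw [← Real.sqrt_mul' _ hww.le]
  apply Real.abs_le_sqrt
  linarith

namespace Simple

variable {g : E → E →L[ℝ] E →L[ℝ] ℝ} {e L : E → E → E}

lemma nonneg (h : Simple g e L) {x : E} (hx : x ∈ closedBall (0 : E) 1) (v : E) :
    0 ≤ g x v v := by
  by_cases hv : v = 0
  · subst hv; simp
  · exact (h.pos x hx v hv).le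

lemma rho_sq (h : Simple g e L) {x : E} (hx : x ∈ closedBall (0 : E) 1) (y : E) :
    rho g L x y ^ 2 = g x (L x y) (L x y) := Real.sq_sqrt (h.nonneg hx _)

lemma rho_nonneg (x y : E) : 0 ≤ rho g L x y := Real.sqrt_nonneg _

lemma rho_symm (h : Simple g e L) {x y : E} (hx : x ∈ closedBall (0 : E) 1)
    (hy : y ∈ closedBall (0 : E) 1) : rho g L x y = rho g L y x := by
  rw [rho, rho, h.energy_symm hx hy]

lemma rho_pos (h : Simple g e L) {x y : E} (hx : x ∈ closedBall (0 : E) 1)
    (hy : y ∈ closedBall (0 : E) 1) (hxy : x ≠ y) : 0 < rho g L x y :=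
  Real.sqrt_pos.2 (h.pos x hx _ fun h0 => hxy ((h.L_eq_zero hx hy).1 h0))

lemma rho_self (h : Simple g e L) {x : E} (hx : x ∈ closedBall (0 : E) 1) :
    rho g L x x = 0 := by
  rw [rho, h.L_self hx]; simp

lemma rho_pt (h : Simple g e L) {x y : E} (hx : x ∈ closedBall (0 : E) 1)
    (hy : y ∈ closedBall (0 : E) 1) {t : ℝ} (ht : t ∈ Icc (0 : ℝ) 1) :
    rho g L x (e x (t • L x y)) = t * rho g L x y := by
  rw [rho, h.L_pt hx hy ht, rho]
  simp only [map_smul, smul_apply, smul_eq_mul]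
  rw [← mul_assoc, Real.sqrt_mul (mul_self_nonneg t), Real.sqrt_mul_self ht.1]

lemma rho_pt' (h : Simple g e L) {x y : E} (hx : x ∈ closedBall (0 : E) 1)
    (hy : y ∈ closedBall (0 : E) 1) {t : ℝ} (ht : t ∈ Icc (0 : ℝ) 1) :
    rho g L y (e x (t • L x y)) = (1 - t) * rho g L x y := by
  rw [rho, h.L_rev_pt hx hy ht, h.rho_symm hx hy, rho]
  simp only [map_smul, smul_apply, smul_eq_mul]
  rw [← mul_assoc, Real.sqrt_mul (mul_self_nonneg _), Real.sqrt_mul_self (by linarith [ht.2])]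

lemma hasFDerivAt_energy (h : Simple g e L) {x y : E} (hx : x ∈ closedBall (0 : E) 1)
    (hy : y ∈ closedBall (0 : E) 1) :
    HasFDerivAt (fun y => g x (L x y) (L x y)) (-(2 : ℝ) • g y (L y x)) y := by
  have hLd : HasFDerivAt (L x) (fderiv ℝ (L x) y) y :=
    ((h.L_smooth_right x).differentiable (by simp) y).hasFDerivAt
  have h1 := ((hasFDerivAt_const (g x) y).clm_apply hLd).clm_apply hLd
  refine h1.congr_fderiv ?_
  ext w
  have := h.gauss hx hy w
  have hs := h.symm x hx (fderiv ℝ (L x) y w) (L x y)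
  simp only [add_apply, ContinuousLinearMap.comp_apply, ContinuousLinearMap.flip_apply,
    zero_apply, smul_apply, smul_eq_mul, add_zero]
  linarith

lemma hasFDerivAt_rho (h : Simple g e L) {x y : E} (hx : x ∈ closedBall (0 : E) 1)
    (hy : y ∈ closedBall (0 : E) 1) (hxy : x ≠ y) :
    HasFDerivAt (rho g L x) (-(rho g L x y)⁻¹ • g y (L y x)) y := by
  have h0 : g x (L x y) (L x y) ≠ 0 := (h.pos x hx _ fun h0 => hxy ((h.L_eq_zero hx hy).1 h0)).ne'
  have h1 := (h.hasFDerivAt_energy hx hy).sqrt h0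
  refine h1.congr_fderiv ?_
  ext w
  simp only [smul_apply, smul_eq_mul, rho]
  have : √(g x (L x y) (L x y)) ≠ 0 := (h.rho_pos hx hy hxy).ne'
  field_simp

lemma rho_sub_le_length (h : Simple g e L) {x a b : E} {c c' : ℝ → E}
    (hx : x ∈ closedBall (0 : E) 1) (hc : IsCurve c c' a b) :
    rho g L x b - rho g L x a ≤ length g c c' := by
  have hgc : Continuous g := h.smooth.continuous
  have hcc : ContinuousOn c (Icc 0 1) := fun t ht => (hc.der t ht).continuousWithinAt
  have hint : ContinuousOn (fun t => √(g (c t) (c' t) (c' t))) (Icc 0 1) := by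
    apply ContinuousOn.sqrt
    exact ((hgc.comp_continuousOn hcc).clm_apply hc.cont).clm_apply hc.cont
  apply le_of_forall_pos_le_add
  intro ε hε
  set φ : ℝ → ℝ := fun t => √(ε ^ 2 + g x (L x (c t)) (L x (c t))) with hφ
  have hpos : ∀ t, 0 < ε ^ 2 + g x (L x (c t)) (L x (c t)) := fun t =>
    add_pos_of_pos_of_nonneg (by positivity) (h.nonneg hx _)
  have hd : ∀ t ∈ Icc (0 : ℝ) 1,
      HasDerivWithinAt φ (- g (c t) (L (c t) x) (c' t) / φ t) (Icc 0 1) t := by
    intro t ht
    have h1 := HasFDerivAt.comp_hasDerivWithinAt (f := c) (l := fun y => g x (L x y) (L x y)) t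
      (h.hasFDerivAt_energy hx (hc.mem t ht)) (hc.der t ht)
    have h2 := (h1.const_add (ε ^ 2)).sqrt (hpos t).ne'
    refine h2.congr_deriv ?_
    simp only [smul_apply, smul_eq_mul, hφ, Function.comp]
    have : √(ε ^ 2 + g x (L x (c t)) (L x (c t))) ≠ 0 := (Real.sqrt_pos.2 (hpos t)).ne'
    field_simp
  have hmain := intervalIntegral.sub_le_integral_of_hasDeriv_right_of_le (g := φ)
    (g' := fun t => - g (c t) (L (c t) x) (c' t) / φ t)
    (φ := fun t => √(g (c t) (c' t) (c' t))) zero_le_one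
    (fun t ht => (hd t ht).continuousWithinAt)
    (fun t ht => (hd t (Ioo_subset_Icc_self ht)).mono_of_mem_nhdsWithin
      (Icc_mem_nhdsGT_of_mem (Ioo_subset_Ico_self ht)))
    (hint.integrableOn_compact isCompact_Icc)
    (fun t ht => by
      have ht' : t ∈ Icc (0 : ℝ) 1 := Ioo_subset_Icc_self ht
      have hφt : 0 < φ t := Real.sqrt_pos.2 (hpos t)
      rw [div_le_iff₀ hφt]
      have h1 := cs (B := g (c t)) (h.symm _ (hc.mem t ht')) (h.pos _ (hc.mem t ht'))
        (L (c t) x) (c' t)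
      have h2 : √(g (c t) (L (c t) x) (L (c t) x)) ≤ φ t := by
        apply Real.sqrt_le_sqrt
        rw [← h.energy_symm hx (hc.mem t ht')]
        nlinarith [sq_nonneg ε]
      calc - g (c t) (L (c t) x) (c' t) ≤ |g (c t) (L (c t) x) (c' t)| := neg_le_abs _
        _ ≤ _ := h1
        _ ≤ φ t * √(g (c t) (c' t) (c' t)) :=
          mul_le_mul_of_nonneg_right h2 (Real.sqrt_nonneg _)
        _ = _ := mul_comm _ _)
  have h1 : rho g L x b ≤ φ 1 := by
    simp only [hφ, hc.finish, rho]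
    exact Real.sqrt_le_sqrt (by nlinarith [sq_nonneg ε])
  have h0 : φ 0 ≤ rho g L x a + ε := by
    simp only [hφ, hc.start]
    rw [Real.sqrt_le_left (by have := rho_nonneg (g := g) (L := L) x a; positivity)]
    have h2 := h.rho_sq hx a
    have h3 := rho_nonneg (g := g) (L := L) x a
    nlinarith [mul_nonneg h3 hε.le]
  have : φ 1 - φ 0 ≤ length g c c' := hmain
  linarith

lemma isCurve_geod {γ u : ℝ → E} (hγ : IsGeod g γ u) :
    IsCurve γ u (γ 0) (γ 1) :=
  ⟨hγ.mem, hγ.vel, fun t ht => by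
    obtain ⟨a, ha, -⟩ := hγ.acc t ht
    exact ha.continuousWithinAt, rfl, rfl⟩

lemma length_geod (h : Simple g e L) {γ u : ℝ → E} (hγ : IsGeod g γ u) :
    length g γ u = rho g L (γ 0) (γ 1) := by
  have h1 : length g γ u = ∫ t in (0 : ℝ)..1, √(g (γ 0) (u 0) (u 0)) := by
    apply intervalIntegral.integral_congr
    intro t ht
    rw [uIcc_of_le zero_le_one] at ht
    simp only
    rw [hγ.energy h.smooth h.symm ht]
  rw [h1, intervalIntegral.integral_const, sub_zero, one_smul, rho,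
    h.L_geod hγ zero_mem01 one_mem01, sub_zero, one_smul]

/-- the distance is `|L x y|` -/
lemma gdist_eq (h : Simple g e L) {x y : E} (hx : x ∈ closedBall (0 : E) 1)
    (hy : y ∈ closedBall (0 : E) 1) : gdist g x y = rho g L x y := by
  apply IsLeast.csInf_eq
  constructor
  · obtain ⟨γ, u, hγ, h0, hu, h1⟩ := h.exists_geod hx hy
    refine ⟨γ, u, ?_, ?_⟩
    · have := isCurve_geod hγ
      rwa [h0, h1] at this
    · rw [h.length_geod hγ, h0, h1]
  · rintro l ⟨c, c', hc, rfl⟩
    have := h.rho_sub_le_length hx hc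
    rwa [h.rho_self hx, sub_zero] at this

lemma triangle (h : Simple g e L) {x y z : E} (hx : x ∈ closedBall (0 : E) 1)
    (hy : y ∈ closedBall (0 : E) 1) (hz : z ∈ closedBall (0 : E) 1) :
    rho g L x z ≤ rho g L x y + rho g L y z := by
  obtain ⟨γ, u, hγ, h0, hu, h1⟩ := h.exists_geod hy hz
  have h2 := h.rho_sub_le_length hx (isCurve_geod hγ)
  rw [h.length_geod hγ, h0, h1] at h2
  linarith

end Simple

end Pool.Agent.W5h72.BR
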