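import Pool.Agent.H85.BR.Dist

/-!
# Geodesics and the boundary
-/

open Set Metric Filter Topology
open scoped ContDiff RealInnerProductSpace

noncomputable section

namespace Pool.Agent.W5h72.BR

variable {E : Type*} [NormedAddCommGroup E] [InnerProductSpace ℝ E]

/-- the geodesic segment from `p` to `q`, as a set of points -/
def seg (g : E → E →L[ℝ] E →L[ℝ] ℝ) (p q : E) : Set E :=
  {z | ∃ γ u, IsGeod g γ u ∧ γ 0 = p ∧ γ 1 = q ∧ ∃ t ∈ Icc (0 : ℝ) 1, γ t = z}

namespace Simple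

variable {g : E → E →L[ℝ] E →L[ℝ] ℝ} {e L : E → E → E}

lemma mem_seg (h : Simple g e L) {p q z : E} (hp : p ∈ closedBall (0 : E) 1)
    (hq : q ∈ closedBall (0 : E) 1) :
    z ∈ seg g p q ↔ ∃ t ∈ Icc (0 : ℝ) 1, z = e p (t • L p q) := by
  constructor
  · rintro ⟨γ, u, hγ, h0, h1, t, ht, rfl⟩
    refine ⟨t, ht, ?_⟩
    have e1 := h.geod_eq hγ ht
    have e2 := h.L_geod hγ zero_mem01 one_mem01
    rw [h0, h1, sub_zero, one_smul] at e2
    rw [h0, ← e2] at e1
    exact e1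
  · rintro ⟨t, ht, rfl⟩
    obtain ⟨γ, u, hγ, h0, hu, h1⟩ := h.exists_geod hp hq
    refine ⟨γ, u, hγ, h0, h1, t, ht, ?_⟩
    have e1 := h.geod_eq hγ ht
    rwa [h0, hu] at e1

lemma vel_ne_zero (h : Simple g e L) {γ u : ℝ → E} (hγ : IsGeod g γ u) (hne : γ 0 ≠ γ 1)
    {t : ℝ} (ht : t ∈ Icc (0 : ℝ) 1) : u t ≠ 0 := by
  intro h0
  have e1 := hγ.energy h.smooth h.symm ht
  rw [h0] at e1
  have e2 := h.L_geod hγ zero_mem01 one_mem01
  rw [sub_zero, one_smul] at e2
  have e3 : u 0 ≠ 0 := by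
    rw [← e2]
    exact fun h3 => hne ((h.L_eq_zero (hγ.mem 0 zero_mem01) (hγ.mem 1 one_mem01)).1 h3)
  have := h.pos _ (hγ.mem 0 zero_mem01) _ e3
  rw [← e1] at this
  simp at this

/-- a geodesic of `M` starts inwards at a boundary point -/
lemma inward (h : Simple g e L) {γ u : ℝ → E} (hγ : IsGeod g γ u) (hne : γ 0 ≠ γ 1)
    {t : ℝ} (ht : t ∈ Ico (0 : ℝ) 1) (hb : ‖γ t‖ = 1) : inner ℝ (γ t) (u t) < 0 := by
  by_contra hcon
  push Not at hcon
  have ht' : t ∈ Icc (0 : ℝ) 1 := Ico_subset_Icc_self ht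
  have hu := h.vel_ne_zero hγ hne ht'
  obtain ⟨a, ha, hacc⟩ := hγ.acc t ht'
  have hdH : HasDerivWithinAt (fun r => inner ℝ (γ r) (u r))
      (inner ℝ (γ t) a + inner ℝ (u t) (u t)) (Icc 0 1) t := (hγ.vel t ht').inner ℝ ha
  have hmemn : Icc (0 : ℝ) 1 ∈ 𝓝[>] t := Icc_mem_nhdsGT_of_mem ht
  have hev : ∀ᶠ r in 𝓝[>] t, 0 < inner ℝ (γ r) (u r) := by
    rcases hcon.lt_or_eq with hlt | heq
    · have hc : Tendsto (fun r => inner ℝ (γ r) (u r)) (𝓝[>] t) (𝓝 (inner ℝ (γ t) (u t))) :=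
        (hdH.mono_of_mem_nhdsWithin hmemn).continuousWithinAt
      exact hc.eventually (lt_mem_nhds hlt)
    · have hd : 0 < inner ℝ (γ t) a + inner ℝ (u t) (u t) := by
        have := h.convex (γ t) (by simpa using hb) (u t) hu heq.symm a hacc
        rw [real_inner_self_eq_norm_sq]; linarith
      have hs := (hasDerivWithinAt_iff_tendsto_slope' (self_notMem_Ioi)).1
        (hdH.mono_of_mem_nhdsWithin hmemn)
      filter_upwards [hs.eventually (lt_mem_nhds hd), self_mem_nhdsWithin] with r hr hr2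
      rw [slope_def_field, ← heq, sub_zero] at hr
      exact (div_pos_iff_of_pos_right (sub_pos.2 hr2)).1 hr
  obtain ⟨b, hb1, hb2⟩ := mem_nhdsGT_iff_exists_Ioo_subset.1
    (inter_mem hev (Ioo_mem_nhdsGT ht.2))
  set r := (t + min b 1) / 2 with hr
  have hb1' : t < b := hb1
  have hmin : t < min b 1 := lt_min hb1' ht.2
  have hr1 : t < r := by rw [hr]; linarith
  have hr2 : r < b := by rw [hr]; linarith [min_le_left b 1]
  have hr3 : r < 1 := by rw [hr]; linarith [min_le_right b 1]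
  have hfd : ∀ s ∈ Ioo t r, HasDerivAt (fun s => inner ℝ (γ s) (γ s))
      (2 * inner ℝ (γ s) (u s)) s := by
    intro s hs
    have hs' : s ∈ Icc (0 : ℝ) 1 := ⟨ht.1.trans hs.1.le, (hs.2.trans hr3).le⟩
    have hs2 : Icc (0 : ℝ) 1 ∈ 𝓝 s := Icc_mem_nhds (ht.1.trans_lt hs.1) (hs.2.trans hr3)
    have h1 := (hγ.vel s hs').hasDerivAt hs2
    refine (h1.inner ℝ h1).congr_deriv ?_
    rw [real_inner_comm (γ s) (u s)]; ring
  have hfc : ContinuousOn (fun s => inner ℝ (γ s) (γ s)) (Icc t r) := by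
    intro s hs
    have hs' : s ∈ Icc (0 : ℝ) 1 := ⟨ht.1.trans hs.1, (hs.2.trans hr3.le)⟩
    have h1 := ((hγ.vel s hs').inner ℝ (hγ.vel s hs')).continuousWithinAt
    exact h1.mono (Icc_subset_Icc ht.1 hr3.le)
  obtain ⟨c, hc, hc2⟩ := exists_hasDerivAt_eq_slope _ _ hr1 hfc hfd
  have hc3 : 0 < inner ℝ (γ c) (u c) := (hb2 ⟨hc.1, hc.2.trans hr2⟩).1
  have h4 : (0 : ℝ) < (inner ℝ (γ r) (γ r) - inner ℝ (γ t) (γ t)) / (r - t) := by
    rw [← hc2]; positivity
  have h5 := (div_pos_iff_of_pos_right (sub_pos.2 hr1)).1 h4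
  rw [real_inner_self_eq_norm_sq, real_inner_self_eq_norm_sq, hb] at h5
  have h6 : ‖γ r‖ ≤ 1 := by simpa using hγ.mem r ⟨ht.1.trans hr1.le, hr3.le⟩
  nlinarith [norm_nonneg (γ r)]

/-- a geodesic of `M` ends outwards at a boundary point -/
lemma outward (h : Simple g e L) {γ u : ℝ → E} (hγ : IsGeod g γ u) (hne : γ 0 ≠ γ 1)
    {t : ℝ} (ht : t ∈ Ioc (0 : ℝ) 1) (hb : ‖γ t‖ = 1) : 0 < inner ℝ (γ t) (u t) := by
  have h1 := hγ.reparam one_mem01 zero_mem01
  have h2 := h.inward h1 (by simpa using hne.symm) (t := 1 - t)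
    ⟨by linarith [ht.2], by linarith [ht.1]⟩ (by
      have : (1 : ℝ) + (1 - t) * (0 - 1) = t := by ring
      simp only [this]; exact hb)
  have : (1 : ℝ) + (1 - t) * (0 - 1) = t := by ring
  simp only [this] at h2
  rw [inner_smul_right] at h2
  linarith

lemma interior (h : Simple g e L) {γ u : ℝ → E} (hγ : IsGeod g γ u) (hne : γ 0 ≠ γ 1)
    {t : ℝ} (ht : t ∈ Ioo (0 : ℝ) 1) : ‖γ t‖ < 1 := by
  refine lt_of_le_of_ne (by simpa using hγ.mem t (Ioo_subset_Icc_self ht)) fun hb => ?_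
  have h1 := h.inward hγ hne (Ioo_subset_Ico_self ht) hb
  have h2 := h.outward hγ hne (Ioo_subset_Ioc_self ht) hb
  linarith

lemma pt_interior (h : Simple g e L) {x y : E} (hx : x ∈ closedBall (0 : E) 1)
    (hy : y ∈ closedBall (0 : E) 1) (hxy : x ≠ y) {t : ℝ} (ht : t ∈ Ioo (0 : ℝ) 1) :
    ‖e x (t • L x y)‖ < 1 := by
  obtain ⟨γ, u, hγ, h0, hu, h1⟩ := h.exists_geod hx hy
  have e1 := h.geod_eq hγ (Ioo_subset_Icc_self ht)
  rw [h0, hu] at e1
  rw [← e1]
  exact h.interior hγ (by rw [h0, h1]; exact hxy) ht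

lemma L_inward (h : Simple g e L) {p x : E} (hp : p ∈ sphere (0 : E) 1)
    (hx : x ∈ closedBall (0 : E) 1) (hne : p ≠ x) : inner ℝ p (L p x) < 0 := by
  obtain ⟨γ, u, hγ, h0, hu, h1⟩ := h.exists_geod (sphere_subset_closedBall hp) hx
  have := h.inward hγ (by rw [h0, h1]; exact hne) (t := 0) ⟨le_rfl, zero_lt_one⟩
    (by rw [h0]; simpa using hp)
  rwa [h0, hu] at this

variable [FiniteDimensional ℝ E]

omit [FiniteDimensional ℝ E] in
lemma D_comp (h : Simple g e L) {x y : E} (hx : x ∈ closedBall (0 : E) 1)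
    (hy : y ∈ closedBall (0 : E) 1) :
    (fderiv ℝ (e x) (L x y)).comp (fderiv ℝ (L x) y) = ContinuousLinearMap.id ℝ E := by
  have hLd : HasFDerivAt (L x) (fderiv ℝ (L x) y) y :=
    ((h.L_smooth_right x).differentiable (by simp) y).hasFDerivAt
  have hed : HasFDerivAt (e x) (fderiv ℝ (e x) (L x y)) (L x y) :=
    ((h.e_smooth_right x).differentiable (by simp) _).hasFDerivAt
  have h1 : HasFDerivWithinAt (fun z => e x (L x z))
      ((fderiv ℝ (e x) (L x y)).comp (fderiv ℝ (L x) y)) (closedBall (0 : E) 1) y :=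
    (hed.comp y hLd).hasFDerivWithinAt
  have h2 : HasFDerivWithinAt (fun z => e x (L x z)) (ContinuousLinearMap.id ℝ E)
      (closedBall (0 : E) 1) y :=
    (hasFDerivWithinAt_id y _).congr (fun z hz => h.e_L hx hz) (h.e_L hx hy)
  have hu : UniqueDiffOn ℝ (closedBall (0 : E) 1) :=
    uniqueDiffOn_convex (convex_closedBall _ _) (by
      rw [interior_closedBall _ one_ne_zero]; exact ⟨0, by simp⟩)
  exact (hu y hy).eq h1 h2

lemma D_comp' (h : Simple g e L) {x y : E} (hx : x ∈ closedBall (0 : E) 1)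
    (hy : y ∈ closedBall (0 : E) 1) :
    (fderiv ℝ (L x) y).comp (fderiv ℝ (e x) (L x y)) = ContinuousLinearMap.id ℝ E := by
  have h1 := h.D_comp hx hy
  have h2 : (fderiv ℝ (e x) (L x y)).toLinearMap ∘ₗ (fderiv ℝ (L x) y).toLinearMap =
      LinearMap.id := by
    ext v
    exact congrArg (fun f : E →L[ℝ] E => f v) h1
  have h3 := (LinearMap.comp_eq_id_comm ℝ E).1 h2
  ext v
  exact congrArg (fun f : E →ₗ[ℝ] E => f v) h3

/-- the domain of `exp_x` is a neighbourhood of the vectors with end point in the open ball -/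
lemma domain_nhds (h : Simple g e L) {x y : E} (hx : x ∈ closedBall (0 : E) 1)
    (hy : ‖y‖ < 1) :
    ∀ᶠ v in 𝓝 (L x y), e x v ∈ closedBall (0 : E) 1 ∧ L x (e x v) = v := by
  have hyM : y ∈ closedBall (0 : E) 1 := by simpa using hy.le
  have hk : ContDiff ℝ ∞ (fun v => L x (e x v)) := (h.L_smooth_right x).comp (h.e_smooth_right x)
  have hs : HasStrictFDerivAt (fun v => L x (e x v)) (ContinuousLinearMap.id ℝ E) (L x y) := by
    have h1 : HasStrictFDerivAt (fun v => L x (e x v)) (fderiv ℝ (fun v => L x (e x v)) (L x y))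
        (L x y) := hk.contDiffAt.hasStrictFDerivAt (by simp)
    have h2 : fderiv ℝ (fun v => L x (e x v)) (L x y) = ContinuousLinearMap.id ℝ E := by
      have hed : HasFDerivAt (e x) (fderiv ℝ (e x) (L x y)) (L x y) :=
        ((h.e_smooth_right x).differentiable (by simp) _).hasFDerivAt
      have hLd : HasFDerivAt (L x) (fderiv ℝ (L x) y) (e x (L x y)) := by
        rw [h.e_L hx hyM]
        exact ((h.L_smooth_right x).differentiable (by simp) y).hasFDerivAt
      rw [← h.D_comp' hx hyM]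
      exact (hLd.comp (L x y) hed).fderiv
    rwa [h2] at h1
  have hkc : ContinuousAt (fun v => L x (e x v)) (L x y) := hk.continuous.continuousAt
  have hk0 : L x (e x (L x y)) = L x y := by rw [h.e_L hx hyM]
  have hb := hs.isLittleO.def (c := 1 / 2) (by norm_num)
  have ht : Tendsto (fun v => (v, L x (e x v))) (𝓝 (L x y)) (𝓝 (L x y, L x y)) := by
    refine tendsto_id.prodMk_nhds ?_
    have : Tendsto (fun v => L x (e x v)) (𝓝 (L x y)) (𝓝 (L x (e x (L x y)))) := hkc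
    rwa [hk0] at this
  have hball : ∀ᶠ v in 𝓝 (L x y), e x v ∈ closedBall (0 : E) 1 := by
    have hc : ContinuousAt (fun v => ‖e x v‖) (L x y) :=
      ((h.e_smooth_right x).continuous.norm).continuousAt
    have : ∀ᶠ v in 𝓝 (L x y), ‖e x v‖ < 1 := by
      apply hc.eventually_lt_const
      show ‖e x (L x y)‖ < 1
      rwa [h.e_L hx hyM]
    filter_upwards [this] with v hv
    simpa using hv.le
  filter_upwards [ht.eventually hb, hball] with v hv hv2
  refine ⟨hv2, ?_⟩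
  have h3 : L x (e x (L x (e x v))) = L x (e x v) := by rw [h.e_L hx hv2]
  simp only [h3, sub_self, ContinuousLinearMap.coe_id', id_eq, zero_sub, norm_neg] at hv
  have : ‖v - L x (e x v)‖ = 0 := by linarith [norm_nonneg (v - L x (e x v))]
  exact (sub_eq_zero.1 (norm_eq_zero.1 this)).symm

/-- the exit point of a geodesic -/
lemma exit (h : Simple g e L) {x y : E} (hx : x ∈ closedBall (0 : E) 1)
    (hy : y ∈ closedBall (0 : E) 1) (hxy : x ≠ y) :
    ∃ q ∈ sphere (0 : E) 1, ∃ s : ℝ, 1 ≤ s ∧ L x q = s • L x y := by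
  have hv : L x y ≠ 0 := fun h0 => hxy ((h.L_eq_zero hx hy).1 h0)
  have hcomp : IsCompact (L x '' closedBall (0 : E) 1) :=
    (isCompact_closedBall 0 1).image (h.L_smooth_right x).continuous
  set K : Set ℝ := {s | 1 ≤ s ∧ s • L x y ∈ L x '' closedBall (0 : E) 1} with hK
  have hKc : IsClosed K := by
    have h1 : IsClosed {s : ℝ | s • L x y ∈ L x '' closedBall (0 : E) 1} :=
      hcomp.isClosed.preimage (by fun_prop : Continuous fun s : ℝ => s • L x y)
    exact isClosed_Ici.inter h1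
  obtain ⟨R, hR⟩ := hcomp.isBounded.exists_norm_le
  have hbdd : BddAbove K := by
    refine ⟨R / ‖L x y‖, ?_⟩
    rintro s ⟨hs1, hs2⟩
    rw [le_div_iff₀ (norm_pos_iff.2 hv)]
    have := hR _ hs2
    rw [norm_smul, Real.norm_eq_abs, abs_of_nonneg (by linarith)] at this
    exact this
  have hne : K.Nonempty := ⟨1, le_rfl, by rw [one_smul]; exact mem_image_of_mem _ hy⟩
  have hmem : sSup K ∈ K := hKc.csSup_mem hne hbdd
  obtain ⟨hs1, q, hq, hq2⟩ := hmem
  refine ⟨q, ?_, sSup K, hs1, hq2⟩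
  by_contra hcon
  have hq1 : ‖q‖ < 1 := lt_of_le_of_ne (by simpa using hq) (by simpa using hcon)
  have hn := h.domain_nhds hx hq1
  rw [hq2] at hn
  have hc : Tendsto (fun s : ℝ => s • L x y) (𝓝[>] (sSup K)) (𝓝 (sSup K • L x y)) :=
    ((by fun_prop : Continuous fun s : ℝ => s • L x y).tendsto _).mono_left nhdsWithin_le_nhds
  obtain ⟨s, hs, hs2⟩ := ((hc.eventually hn).and self_mem_nhdsWithin).exists
  have hs3 : s ∈ K := by
    refine ⟨hs1.trans (le_of_lt hs2), ?_⟩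
    exact ⟨_, hs.1, hs.2⟩
  exact absurd (le_csSup hbdd hs3) (not_le.2 hs2)

lemma exit_dir (h : Simple g e L) {x w : E} (hx : ‖x‖ < 1) (hw : w ≠ 0) :
    ∃ q ∈ sphere (0 : E) 1, ∃ s : ℝ, 0 < s ∧ L x q = s • w := by
  have hxM : x ∈ closedBall (0 : E) 1 := by simpa using hx.le
  have hn := h.domain_nhds hxM hx
  rw [h.L_self hxM] at hn
  have hc : Tendsto (fun s : ℝ => s • w) (𝓝[>] 0) (𝓝 0) := by
    have := ((by fun_prop : Continuous fun s : ℝ => s • w).tendsto 0).mono_left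
      (nhdsWithin_le_nhds (s := Ioi (0 : ℝ)))
    simpa using this
  obtain ⟨s, hs, hs2⟩ := ((hc.eventually hn).and self_mem_nhdsWithin).exists
  have hs2' : 0 < s := hs2
  have hne : x ≠ e x (s • w) := by
    intro h0
    have h1 := hs.2
    rw [← h0, h.L_self hxM] at h1
    exact (smul_ne_zero hs2'.ne' hw) h1.symm
  obtain ⟨q, hq, r, hr, hq2⟩ := h.exit hxM hs.1 hne
  refine ⟨q, hq, r * s, by positivity, ?_⟩
  rw [hq2, hs.2, smul_smul]

/-- every interior point is in the interior of a geodesic segment which starts at a given point `p`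
and ends in the boundary -/
lemma exit_seg (h : Simple g e L) {p x : E} (hp : p ∈ closedBall (0 : E) 1) (hx : ‖x‖ < 1)
    (hpx : p ≠ x) :
    ∃ q ∈ sphere (0 : E) 1, ∃ t ∈ Ioo (0 : ℝ) 1, x = e p (t • L p q) ∧ L p x = t • L p q := by
  have hxM : x ∈ closedBall (0 : E) 1 := by simpa using hx.le
  obtain ⟨q, hq, s, hs, hq2⟩ := h.exit hp hxM hpx
  have hs0 : 0 < s := by linarith
  have h1 : L p x = s⁻¹ • L p q := by rw [hq2, smul_smul, inv_mul_cancel₀ hs0.ne', one_smul]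
  have h2 : s ≠ 1 := by
    rintro rfl
    rw [one_smul] at hq2
    have h3 := h.e_L hp (sphere_subset_closedBall hq)
    rw [hq2, h.e_L hp hxM] at h3
    rw [← h3] at hq
    have : ‖x‖ = 1 := by simpa using hq
    linarith
  refine ⟨q, hq, s⁻¹, ⟨by positivity, inv_lt_one_of_one_lt₀ (lt_of_le_of_ne hs h2.symm)⟩, ?_, h1⟩
  rw [← h1, h.e_L hp hxM]

omit [FiniteDimensional ℝ E] in
/-- uniqueness of the exit point -/
lemma exit_unique (h : Simple g e L) {p q q' : E} (hp : p ∈ closedBall (0 : E) 1)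
    (hq : q ∈ sphere (0 : E) 1) (hq' : q' ∈ sphere (0 : E) 1) (hpq : p ≠ q) (hpq' : p ≠ q')
    {s : ℝ} (hs : 0 < s) (hL : L p q' = s • L p q) : q' = q := by
  have hqM := sphere_subset_closedBall hq
  have hqM' := sphere_subset_closedBall hq'
  rcases lt_trichotomy s 1 with h1 | h1 | h1
  · have h2 := h.pt_interior hp hqM hpq (t := s) ⟨hs, h1⟩
    rw [← hL, h.e_L hp hqM'] at h2
    have : ‖q'‖ = 1 := by simpa using hq'
    linarith
  · rw [h1, one_smul] at hL
    rw [← h.e_L hp hqM', hL, h.e_L hp hqM]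
  · have h2 := h.pt_interior hp hqM' hpq' (t := s⁻¹)
      ⟨by positivity, inv_lt_one_of_one_lt₀ h1⟩
    rw [hL, smul_smul, inv_mul_cancel₀ hs.ne', one_smul, h.e_L hp hqM] at h2
    have : ‖q‖ = 1 := by simpa using hq
    linarith

end Simple

end Pool.Agent.W5h72.BR
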