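import Pool.Agent.H85.BR.Iso

/-!
# Second derivatives of the distance from the points of a geodesic
-/

open Set Metric Filter Topology
open scoped ContDiff RealInnerProductSpace

noncomputable section

namespace Pool.Agent.W5h72.BR

variable {E : Type*} [NormedAddCommGroup E] [InnerProductSpace ℝ E]

/-- second order condition at a local minimum -/
lemma snd_nonneg {F : Type*} [NormedAddCommGroup F] [NormedSpace ℝ F] {f : F → ℝ} {p : F}
    (hf : ContDiffAt ℝ ∞ f p) (hmin : IsLocalMin f p) (ξ : F) :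
    0 ≤ fderiv ℝ (fderiv ℝ f) p ξ ξ := by
  by_contra hcon
  push Not at hcon
  have hl : ∀ s : ℝ, HasDerivAt (fun s : ℝ => p + s • ξ) ξ s := fun s => by
    simpa using ((hasDerivAt_id s).smul_const ξ).const_add p
  have hlc : ContinuousAt (fun s : ℝ => p + s • ξ) 0 := (hl 0).continuousAt
  have hl0 : (fun s : ℝ => p + s • ξ) 0 = p := by simp
  have hd2 : ∀ᶠ z in 𝓝 p, DifferentiableAt ℝ f z := by
    have h1 := (hf.of_le (m := 1) (by exact_mod_cast le_top)).eventually (by simp)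
    filter_upwards [h1] with z hz using hz.differentiableAt (by simp)
  have hd3 : ∀ᶠ s in 𝓝 (0 : ℝ), HasDerivAt (fun s : ℝ => f (p + s • ξ))
      (fderiv ℝ f (p + s • ξ) ξ) s := by
    have h1 : Tendsto (fun s : ℝ => p + s • ξ) (𝓝 0) (𝓝 p) := by
      simpa using hlc.tendsto
    filter_upwards [h1.eventually hd2] with s hs
    exact HasFDerivAt.comp_hasDerivAt (f := fun s : ℝ => p + s • ξ) (l := f) s hs.hasFDerivAt (hl s)
  have hd4 : HasDerivAt (fun s : ℝ => fderiv ℝ f (p + s • ξ) ξ) (fderiv ℝ (fderiv ℝ f) p ξ ξ) 0 := by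
    have h1 : HasFDerivAt (fderiv ℝ f) (fderiv ℝ (fderiv ℝ f) p) p :=
      ((hf.fderiv_right (m := ∞) (by simp)).differentiableAt (by simp)).hasFDerivAt
    have h2 := HasFDerivAt.comp_hasDerivAt_of_eq (f := fun s : ℝ => p + s • ξ)
      (l := fderiv ℝ f) (0 : ℝ) h1 (hl 0) (by simp)
    simpa using h2.clm_apply (hasDerivAt_const (0 : ℝ) ξ)
  have hd5 : fderiv ℝ f p ξ = 0 := by
    rw [hmin.fderiv_eq_zero]; rfl
  have e1 : deriv (fun s : ℝ => f (p + s • ξ)) =ᶠ[𝓝 0] fun s => fderiv ℝ f (p + s • ξ) ξ := by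
    filter_upwards [hd3] with s hs using hs.deriv
  have e2 : deriv (deriv (fun s : ℝ => f (p + s • ξ))) 0 = fderiv ℝ (fderiv ℝ f) p ξ ξ := by
    rw [e1.deriv_eq]; exact hd4.deriv
  have e3 : deriv (fun s : ℝ => f (p + s • ξ)) 0 = 0 := by
    rw [e1.self_of_nhds]; simp [hd5]
  have hmax := isLocalMax_of_deriv_deriv_neg (f := fun s : ℝ => f (p + s • ξ)) (x₀ := 0)
    (by rw [e2]; exact hcon) e3 hd3.self_of_nhds.continuousAt
  have hmin' : IsLocalMin (fun s : ℝ => f (p + s • ξ)) 0 := by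
    have h1 : Tendsto (fun s : ℝ => p + s • ξ) (𝓝 0) (𝓝 p) := by
      simpa using hlc.tendsto
    have h2 : ∀ᶠ s in 𝓝 (0 : ℝ), f p ≤ f (p + s • ξ) := h1.eventually hmin
    filter_upwards [h2] with s hs
    simpa using hs
  have e4 : (fun s : ℝ => f (p + s • ξ)) =ᶠ[𝓝 0] fun _ => f p := by
    filter_upwards [hmax, hmin'] with s h1 h2
    simp only [zero_smul, add_zero] at h1 h2
    exact le_antisymm h1 h2
  have e5 : deriv (fun s : ℝ => f (p + s • ξ)) =ᶠ[𝓝 0] fun _ => 0 := by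
    have := e4.deriv
    simpa using this
  have e6 : deriv (deriv (fun s : ℝ => f (p + s • ξ))) 0 = 0 := by
    rw [e5.deriv_eq]; simp
  rw [e2] at e6
  linarith

/-- kernel of a semidefinite form -/
lemma semidef_kernel {F : Type*} [NormedAddCommGroup F] [NormedSpace ℝ F]
    {K : F →L[ℝ] F →L[ℝ] ℝ} (hs : ∀ v w, K v w = K w v) (hp : ∀ v, 0 ≤ K v v)
    {ξ : F} (h0 : K ξ ξ ≤ 0) (ζ : F) : K ξ ζ = 0 := by
  have h0' : K ξ ξ = 0 := le_antisymm h0 (hp ξ)
  by_contra hne
  have key : ∀ t : ℝ, 0 ≤ K ζ ζ + 2 * t * K ξ ζ := by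
    intro t
    have := hp (ζ + t • ξ)
    simp only [map_add, map_smul, add_apply, smul_apply, smul_eq_mul, h0'] at this
    rw [hs ζ ξ] at this
    linarith
  have h1 := key (-(K ζ ζ + 1) / (2 * K ξ ζ))
  have h2 : 2 * (-(K ζ ζ + 1) / (2 * K ξ ζ)) * K ξ ζ = -(K ζ ζ + 1) := by
    field_simp
  rw [h2] at h1
  linarith

/-- product rule with a vanishing factor -/
lemma hasDerivAt_apply_zero {F : Type*} [NormedAddCommGroup F] [NormedSpace ℝ F]
    {b : ℝ → F →L[ℝ] ℝ} {Δ : ℝ → F} {δ : F} (hb : ContinuousAt b 0) (hΔ : HasDerivAt Δ δ 0)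
    (h0 : Δ 0 = 0) : HasDerivAt (fun s => b s (Δ s)) (b 0 δ) 0 := by
  rw [hasDerivAt_iff_tendsto_slope]
  have h1 := hasDerivAt_iff_tendsto_slope.1 hΔ
  have h2 : Tendsto b (𝓝[≠] 0) (𝓝 (b 0)) := hb.tendsto.mono_left nhdsWithin_le_nhds
  refine ((isBoundedBilinearMap_apply.continuous.tendsto (b 0, δ)).comp
    (h2.prodMk_nhds h1)).congr fun s => ?_
  simp only [slope_def_module, sub_zero, h0, map_smul, map_zero, Function.comp]

lemma contDiffAt_proj {y : E} (hy : y ≠ 0) : ContDiffAt ℝ ∞ (proj (E := E)) y :=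
  ((contDiffAt_norm ℝ hy).inv (norm_ne_zero_iff.2 hy)).smul contDiffAt_id

lemma Dproj_eq {y : E} (hy : y ≠ 0) : fderiv ℝ (proj (E := E)) y = Dproj y :=
  (hasFDerivAt_proj hy).fderiv

namespace Simple

variable {g g' : E → E →L[ℝ] E →L[ℝ] ℝ} {e L e' L' : E → E → E}

lemma contDiffAt_rho (h : Simple g e L) {x y : E} (hx : x ∈ closedBall (0 : E) 1)
    (hy : y ∈ closedBall (0 : E) 1) (hxy : x ≠ y) :
    ContDiffAt ℝ ∞ (fun w : E × E => rho g L w.1 w.2) (x, y) := by
  have h0 : g x (L x y) (L x y) ≠ 0 := (h.pos x hx _ fun h0 => hxy ((h.L_eq_zero hx hy).1 h0)).ne'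
  have h1 : ContDiffAt ℝ ∞ (fun w : E × E => L w.1 w.2) (x, y) := h.L_smooth.contDiffAt
  have h2 : ContDiffAt ℝ ∞ (fun w : E × E => g w.1) (x, y) :=
    (h.smooth.comp contDiff_fst).contDiffAt
  exact ((h2.clm_apply h1).clm_apply h1).sqrt h0

lemma contDiffAt_rho_proj (h : Simple g e L) {y p : E} (hy : y ∈ closedBall (0 : E) 1)
    (hp : p ≠ 0) (hyp : y ≠ proj p) :
    ContDiffAt ℝ ∞ (fun w : E × E => rho g L w.1 (proj w.2)) (y, p) := by
  have h1 := h.contDiffAt_rho hy (mem_of_sphere (proj_mem hp)) hyp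
  have h2 : ContDiffAt ℝ ∞ (fun w : E × E => (w.1, proj w.2)) (y, p) :=
    contDiffAt_fst.prodMk ((contDiffAt_proj hp).comp (y, p) contDiffAt_snd)
  exact ContDiffAt.comp (y, p) (f := fun w : E × E => (w.1, proj w.2)) h1 h2

/-- Hessian at `p` of the distance from `y` -/
def Q (g : E → E →L[ℝ] E →L[ℝ] ℝ) (L : E → E → E) (p y : E) : E →L[ℝ] E →L[ℝ] ℝ :=
  fderiv ℝ (fderiv ℝ (fun z => rho g L y (proj z))) p

lemma contDiffAt_rho_proj' (h : Simple g e L) {y p : E} (hy : y ∈ closedBall (0 : E) 1)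
    (hp : p ≠ 0) (hyp : y ≠ proj p) :
    ContDiffAt ℝ ∞ (fun z : E => rho g L y (proj z)) p := by
  have h1 := h.contDiffAt_rho_proj hy hp hyp
  exact ContDiffAt.comp p (f := fun z : E => (y, z)) h1 (contDiffAt_const.prodMk contDiffAt_id)

lemma symm_snd {F : Type*} [NormedAddCommGroup F] [NormedSpace ℝ F] {f : F → ℝ} {p : F}
    (hf : ContDiffAt ℝ ∞ f p) (v w : F) :
    fderiv ℝ (fderiv ℝ f) p v w = fderiv ℝ (fderiv ℝ f) p w v := by
  refine hf.isSymmSndFDerivAt ?_ v w
  rw [minSmoothness_of_isRCLikeNormedField]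
  exact WithTop.coe_le_coe.2 le_top

lemma De_L (h : Simple g e L) {x y : E} (hx : x ∈ closedBall (0 : E) 1)
    (hy : y ∈ closedBall (0 : E) 1) : fderiv ℝ (e x) (L x y) (L x y) = - L y x := by
  obtain ⟨γ, u, hγ, h0, hu, h1⟩ := h.exists_geod hx hy
  have e3 := h.L_geod hγ one_mem01 zero_mem01
  rw [h1, h0, zero_sub, neg_one_smul] at e3
  have := h.vel_eq hγ one_mem01
  rw [h0, hu, one_smul] at this
  rw [← this, e3, neg_neg]

lemma fderiv_rho_proj (h : Simple g e L) {x y : E} (hx : x ∈ closedBall (0 : E) 1)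
    (hy : y ≠ 0) (hxy : x ≠ proj y) (ζ : E) :
    fderiv ℝ (fun y => rho g L x (proj y)) y ζ =
      - g (proj y) ((rho g L (proj y) x)⁻¹ • L (proj y) x) (Dproj y ζ) := by
  rw [(h.hasFDerivAt_rho_proj hx hy hxy).fderiv]
  simp [dir]

lemma unit_dir (h : Simple g e L) {p x : E} (hp : p ∈ closedBall (0 : E) 1)
    (hx : x ∈ closedBall (0 : E) 1) (hpx : p ≠ x) :
    g p ((rho g L p x)⁻¹ • L p x) ((rho g L p x)⁻¹ • L p x) = 1 := by
  have h1 := h.rho_sq hp x
  have h2 := (h.rho_pos hp hx hpx).ne'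
  simp only [map_smul, smul_apply, smul_eq_mul]
  rw [← h1]; field_simp

variable [FiniteDimensional ℝ E]

/-- strict monotonicity of the Hessians along a geodesic -/
lemma Q_lt (h : Simple g e L) {p y y' : E} (hp : p ∈ sphere (0 : E) 1)
    (hy' : y' ∈ closedBall (0 : E) 1) (hpy' : p ≠ y') {t : ℝ} (ht : t ∈ Ioo (0 : ℝ) 1)
    (hyt : y = e p (t • L p y')) {ξ : E} (hξ : inner ℝ p ξ = 0) (hξ0 : ξ ≠ 0) :
    Q g L p y' ξ ξ < Q g L p y ξ ξ := by
  have hpM := mem_of_sphere hp
  have hp0 := ne_zero_of_mem_sphere' hp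
  have hpp := proj_of_mem hp
  have ht' := Ioo_subset_Icc_self ht
  have hyb : ‖y‖ < 1 := by rw [hyt]; exact h.pt_interior hpM hy' hpy' ht
  have hyM := mem_of_norm_lt hyb
  have hyp : y ≠ p := ne_of_sphere hyb hp
  have hr1 : rho g L p y = t * rho g L p y' := by rw [hyt, h.rho_pt hpM hy' ht']
  have hr2 : rho g L y' y = (1 - t) * rho g L p y' := by rw [hyt, h.rho_pt' hpM hy' ht']
  have hLt : L p y = t • L p y' := by rw [hyt, h.L_pt hpM hy' ht']
  have hr0 := h.rho_pos hpM hy' hpy'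
  have ht0 : t ≠ 0 := ht.1.ne'
  set f1 : E → ℝ := fun z => rho g L y (proj z) with hf1
  set f2 : E → ℝ := fun z => rho g L y' (proj z) with hf2
  have c1 : ContDiffAt ℝ ∞ f1 p := h.contDiffAt_rho_proj' hyM hp0 (by rwa [hpp])
  have c2 : ContDiffAt ℝ ∞ f2 p := h.contDiffAt_rho_proj' hy' hp0 (by rw [hpp]; exact hpy'.symm)
  have cf : ContDiffAt ℝ ∞ (f1 - f2) p := c1.sub c2
  have dcf : ∀ {f : E → ℝ}, ContDiffAt ℝ ∞ f p → ∀ᶠ z in 𝓝 p, DifferentiableAt ℝ f z := by
    intro f hf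
    have h1 := (hf.of_le (m := 1) (by exact_mod_cast le_top)).eventually (by simp)
    filter_upwards [h1] with z hz using hz.differentiableAt (by simp)
  have dcf2 : ∀ {f : E → ℝ}, ContDiffAt ℝ ∞ f p → DifferentiableAt ℝ (fderiv ℝ f) p := by
    intro f hf
    exact (hf.fderiv_right (m := ∞) (by simp)).differentiableAt (by simp)
  have hsub1 : fderiv ℝ (f1 - f2) =ᶠ[𝓝 p] fderiv ℝ f1 - fderiv ℝ f2 := by
    filter_upwards [dcf c1, dcf c2] with z h1 h2
    exact fderiv_sub h1 h2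
  have hsub2 : fderiv ℝ (fderiv ℝ (f1 - f2)) p = Q g L p y - Q g L p y' := by
    rw [hsub1.fderiv_eq, fderiv_sub (dcf2 c1) (dcf2 c2)]
    rfl
  set K := fderiv ℝ (fderiv ℝ (f1 - f2)) p with hK
  -- minimality
  have hmin : IsLocalMin (f1 - f2) p := by
    filter_upwards [isOpen_compl_singleton.mem_nhds (show p ∈ ({0}ᶜ : Set E) from hp0)] with z hz
    have hzM := mem_of_sphere (proj_mem hz)
    have h1 := h.triangle hy' hyM hzM
    simp only [Pi.sub_apply, hf1, hf2, hpp]
    rw [h.rho_symm hyM hpM, h.rho_symm hy' hpM]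
    linarith
  have hKs : ∀ v w, K v w = K w v := fun v w => symm_snd cf v w
  have hKp : ∀ v, 0 ≤ K v v := fun v => snd_nonneg cf hmin v
  by_contra hcon
  push Not at hcon
  have hK0 : K ξ ξ ≤ 0 := by
    rw [hsub2, sub_apply, sub_apply]; linarith
  have hker := semidef_kernel hKs hKp hK0
  -- the curves
  have hl : HasDerivAt (fun s : ℝ => p + s • ξ) ξ 0 := by
    simpa using ((hasDerivAt_id (0 : ℝ)).smul_const ξ).const_add p
  set z : ℝ → E := fun s => proj (p + s • ξ) with hz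
  have hz0 : z 0 = p := by simp [hz, hpp]
  have hzd : HasDerivAt z ξ 0 := by
    have h2 := HasFDerivAt.comp_hasDerivAt_of_eq (f := fun s : ℝ => p + s • ξ)
      (l := proj (E := E)) (0 : ℝ) (hasFDerivAt_proj hp0) hl (by simp)
    rw [Dproj_apply hp hξ] at h2
    exact h2
  have hne : ∀ s : ℝ, p + s • ξ ≠ 0 := by
    intro s h0
    have : inner ℝ p (p + s • ξ) = 1 := by
      rw [inner_add_right, inner_smul_right, hξ, real_inner_self_eq_norm_sq, norm_of_sphere hp]
      norm_num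
    rw [h0] at this
    simp at this
  have hzS : ∀ s : ℝ, z s ∈ sphere (0 : E) 1 := fun s => proj_mem (hne s)
  have hzM : ∀ s : ℝ, z s ∈ closedBall (0 : E) 1 := fun s => mem_of_sphere (hzS s)
  have hzy : ∀ s : ℝ, z s ≠ y := fun s => (ne_of_sphere hyb (hzS s)).symm
  have hzy' : ∀ᶠ s in 𝓝 (0 : ℝ), z s ≠ y' := by
    have : ContinuousAt z 0 := hzd.continuousAt
    exact this.eventually_ne (by rw [hz0]; exact hpy')
  -- unit initial directions
  have hud : ∀ x : E, x ∈ closedBall (0 : E) 1 → x ≠ p →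
      DifferentiableAt ℝ (fun w : E => rho g L w x) p := by
    intro x hx hxp
    have h1 := h.contDiffAt_rho hpM hx hxp.symm
    have h2 : ContDiffAt ℝ ∞ (fun w : E => rho g L w x) p :=
      ContDiffAt.comp p (f := fun w : E => (w, x)) h1 (contDiffAt_id.prodMk contDiffAt_const)
    exact h2.differentiableAt (by simp)
  have hLd : ∀ x : E, DifferentiableAt ℝ (fun w : E => L w x) p := by
    intro x
    have h2 : ContDiff ℝ ∞ (fun w : E => L w x) :=
      h.L_smooth.comp (contDiff_id.prodMk contDiff_const)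
    exact h2.differentiable (by simp) p
  have hcurve : ∀ {k : E → ℝ},
      DifferentiableAt ℝ k p → HasDerivAt (fun s => k (z s)) (fderiv ℝ k p ξ) 0 := by
    intro k hk
    exact HasFDerivAt.comp_hasDerivAt_of_eq (f := z) (l := k) (0 : ℝ) hk.hasFDerivAt hzd hz0.symm
  have hcurveE : ∀ {k : E → E},
      DifferentiableAt ℝ k p → HasDerivAt (fun s => k (z s)) (fderiv ℝ k p ξ) 0 := by
    intro k hk
    exact HasFDerivAt.comp_hasDerivAt_of_eq (f := z) (l := k) (0 : ℝ) hk.hasFDerivAt hzd hz0.symm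
  set r : ℝ → ℝ := fun s => rho g L (z s) y with hr
  set r' : ℝ → ℝ := fun s => rho g L (z s) y' with hr'
  have hrd : HasDerivAt r _ 0 := hcurve (hud y hyM hyp)
  have hrd' : HasDerivAt r' _ 0 := hcurve (hud y' hy' hpy'.symm)
  have hr0' : r' 0 = rho g L p y' := by simp [hr', hz0]
  have hr00 : r 0 = t * rho g L p y' := by simp [hr, hz0, hr1]
  have hr0ne : r 0 ≠ 0 := by rw [hr00]; positivity
  have hr0ne' : r' 0 ≠ 0 := by rw [hr0']; positivity
  set u : ℝ → E := fun s => (r s)⁻¹ • L (z s) y with hu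
  set u' : ℝ → E := fun s => (r' s)⁻¹ • L (z s) y' with hu'
  obtain ⟨du, hdu⟩ : ∃ du, HasDerivAt u du 0 :=
    ⟨_, (hrd.inv hr0ne).smul (hcurveE (hLd y))⟩
  obtain ⟨du', hdu'⟩ : ∃ du', HasDerivAt u' du' 0 :=
    ⟨_, (hrd'.inv hr0ne').smul (hcurveE (hLd y'))⟩
  have huu : u 0 = u' 0 := by
    simp only [hu, hu', hr00, hr0', hz0, hLt, smul_smul]
    congr 1
    field_simp
  set Δ : ℝ → E := fun s => u' s - u s with hΔ
  have hΔ0 : Δ 0 = 0 := by simp [hΔ, huu]
  have hΔd : HasDerivAt Δ (du' - du) 0 := hdu'.sub hdu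
  have hgz : ContinuousAt (fun s => g (z s)) 0 := by
    have : ContinuousAt z 0 := hzd.continuousAt
    exact h.smooth.continuous.continuousAt.comp this
  -- tangential components
  have htan : ∀ ζ, inner ℝ p ζ = 0 → g p (du' - du) ζ = 0 := by
    intro ζ hζ
    have k1 : HasDerivAt (fun s : ℝ => fderiv ℝ (f1 - f2) (p + s • ξ) ζ) (K ξ ζ) 0 := by
      have h2 := HasFDerivAt.comp_hasDerivAt_of_eq (f := fun s : ℝ => p + s • ξ)
        (l := fderiv ℝ (f1 - f2)) (0 : ℝ) (dcf2 cf).hasFDerivAt hl (by simp)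
      simpa using h2.clm_apply (hasDerivAt_const (0 : ℝ) ζ)
    have hDc : ContinuousAt (fun s : ℝ => Dproj (p + s • ξ) ζ) 0 := by
      have h1 : ContinuousAt (fun z : E => fderiv ℝ (proj (E := E)) z ζ) p := by
        have h2 := ((contDiffAt_proj hp0).fderiv_right (m := ∞)
          (by simp)).continuousAt
        exact h2.clm_apply continuousAt_const
      have h3 : ContinuousAt (fun s : ℝ => fderiv ℝ (proj (E := E)) (p + s • ξ) ζ) 0 :=
        ContinuousAt.comp_of_eq (f := fun s : ℝ => p + s • ξ)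
          (g := fun z : E => fderiv ℝ (proj (E := E)) z ζ) h1 hl.continuousAt (by simp)
      refine h3.congr (Eventually.of_forall fun s => ?_)
      simp only [Dproj_eq (hne s)]
    have k2 : HasDerivAt (fun s : ℝ => (g (z s)).flip (Dproj (p + s • ξ) ζ) (Δ s))
        ((g (z 0)).flip (Dproj (p + (0 : ℝ) • ξ) ζ) (du' - du)) 0 := by
      refine hasDerivAt_apply_zero ?_ hΔd hΔ0
      have h1 : ContinuousAt (fun s => (g (z s)).flip) 0 :=
        (ContinuousLinearMap.flipₗᵢ ℝ E E ℝ).continuous.continuousAt.comp hgz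
      exact h1.clm_apply hDc
    have k3 : (fun s : ℝ => fderiv ℝ (f1 - f2) (p + s • ξ) ζ) =ᶠ[𝓝 0]
        fun s : ℝ => (g (z s)).flip (Dproj (p + s • ξ) ζ) (Δ s) := by
      have hlc : Tendsto (fun s : ℝ => p + s • ξ) (𝓝 0) (𝓝 p) := by
        have := hl.continuousAt.tendsto
        simpa using this
      filter_upwards [hzy', hlc.eventually hsub1] with s hs1 hs2
      rw [hs2, Pi.sub_apply, sub_apply,
        h.fderiv_rho_proj hyM (hne s) (hzy s).symm,
        h.fderiv_rho_proj hy' (hne s) hs1.symm]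
      simp only [ContinuousLinearMap.flip_apply, hΔ, hu, hu', hr, hr', hz, map_sub, sub_apply]
      ring
    have k4 := k1.unique (k2.congr_of_eventuallyEq k3)
    rw [hker ζ] at k4
    simp only [ContinuousLinearMap.flip_apply, hz0, zero_smul, add_zero,
      Dproj_apply hp hζ] at k4
    exact k4.symm
  -- normal component
  have hnor : g p (du' - du) (u 0) = 0 := by
    have k2 : HasDerivAt (fun s : ℝ => (g (z s)).flip (u' s + u s) (Δ s))
        ((g (z 0)).flip (u' 0 + u 0) (du' - du)) 0 := by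
      refine hasDerivAt_apply_zero ?_ hΔd hΔ0
      have h1 : ContinuousAt (fun s => (g (z s)).flip) 0 :=
        (ContinuousLinearMap.flipₗᵢ ℝ E E ℝ).continuous.continuousAt.comp hgz
      exact h1.clm_apply (hdu'.add hdu).continuousAt
    have k3 : (fun s : ℝ => (g (z s)).flip (u' s + u s) (Δ s)) =ᶠ[𝓝 0] fun _ => (0 : ℝ) := by
      filter_upwards [hzy'] with s hs1
      have a1 := h.unit_dir (hzM s) hyM (hzy s)
      have a2 := h.unit_dir (hzM s) hy' hs1
      change g (z s) (u s) (u s) = 1 at a1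
      change g (z s) (u' s) (u' s) = 1 at a2
      rw [ContinuousLinearMap.flip_apply]
      simp only [hΔ, map_sub, sub_apply, map_add]
      rw [h.symm (z s) (hzM s) (u s) (u' s), a1, a2]
      ring
    have k4 := (k2.congr_of_eventuallyEq k3.symm).unique (hasDerivAt_const (0 : ℝ) (0 : ℝ))
    rw [ContinuousLinearMap.flip_apply, hz0, ← huu, map_add] at k4
    linarith
  -- inwardness of `u 0`
  have hu0 : inner ℝ p (u 0) < 0 := by
    have h1 := h.L_inward hp hyM hyp.symm
    simp only [hu, hz0, inner_smul_right]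
    have h2 : 0 < (r 0)⁻¹ := by rw [hr00]; exact inv_pos.2 (mul_pos ht.1 hr0)
    nlinarith
  have hδ : du' = du := by
    by_contra hne'
    have hne2 : du' - du ≠ 0 := sub_ne_zero.2 hne'
    have h1 := h.pos p hpM _ hne2
    set δ := du' - du with hδdef
    set k := inner ℝ p δ / inner ℝ p (u 0) with hk
    have h2 : inner ℝ p (δ - k • u 0) = 0 := by
      rw [inner_sub_right, inner_smul_right, hk, div_mul_cancel₀ _ hu0.ne, sub_self]
    have h3 := htan _ h2
    rw [map_sub, map_smul, hnor, smul_zero, sub_zero] at h3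
    linarith
  -- the end points
  have hq : HasDerivAt (fun s => e (z s) (r s • u' s)) 0 0 := by
    have hG : HasFDerivAt (fun w : E × E => e w.1 w.2)
        (fderiv ℝ (fun w : E × E => e w.1 w.2) (p, L p y)) (p, L p y) :=
      (h.e_smooth.differentiable (by simp) _).hasFDerivAt
    have hru : r 0 • u 0 = L p y := by
      simp only [hu, hz0, smul_smul, mul_inv_cancel₀ hr0ne, one_smul]
    have hc1 := hzd.prodMk (hrd.smul hdu)
    have hc2 := hzd.prodMk (hrd.smul hdu')
    have hd1 := HasFDerivAt.comp_hasDerivAt_of_eq (f := fun s => (z s, r s • u s))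
      (l := fun w : E × E => e w.1 w.2) (0 : ℝ) hG hc1 (by simp [hz0, hru])
    have hd2 := HasFDerivAt.comp_hasDerivAt_of_eq (f := fun s => (z s, r s • u' s))
      (l := fun w : E × E => e w.1 w.2) (0 : ℝ) hG hc2 (by simp [hz0, ← huu, hru])
    have hconst : ((fun w : E × E => e w.1 w.2) ∘ fun s => (z s, r s • u s)) = fun _ => y := by
      ext1 s
      have hrs : r s ≠ 0 := (h.rho_pos (hzM s) hyM (hzy s)).ne'
      simp only [Function.comp, hu, smul_smul, mul_inv_cancel₀ hrs, one_smul]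
      exact h.e_L (hzM s) hyM
    rw [hconst] at hd1
    have h5 := hd1.unique (hasDerivAt_const (0 : ℝ) y)
    rw [← huu, hδ, h5] at hd2
    exact hd2
  have hq0 : e (z 0) (r 0 • u' 0) = y := by
    rw [← huu]
    simp only [hu, smul_smul, mul_inv_cancel₀ hr0ne, one_smul]
    exact h.e_L (hzM 0) hyM
  have hLq : HasDerivAt (fun s => L y' (e (z s) (r s • u' s))) 0 0 := by
    have := HasFDerivAt.comp_hasDerivAt_of_eq (f := fun s => e (z s) (r s • u' s))
      (l := L y') (0 : ℝ) (h.hasFDerivAt_L y' y) hq hq0.symm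
    rw [map_zero] at this
    exact this
  have hratio : HasDerivAt (fun s => 1 - r s / r' s) _ 0 := (hrd.div hrd' hr0ne').const_sub 1
  have hLz : HasDerivAt (fun s => L y' (z s)) (fderiv ℝ (L y') p ξ) 0 :=
    hcurveE ((h.L_smooth_right y').differentiable (by simp) p)
  have hev : (fun s => L y' (e (z s) (r s • u' s))) =ᶠ[𝓝 0]
      fun s => (1 - r s / r' s) • L y' (z s) := by
    have hrc : ContinuousAt (fun s => r s / r' s) 0 := hrd.continuousAt.div hrd'.continuousAt hr0ne'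
    have hr00' : r 0 / r' 0 = t := by
      rw [hr00, hr0']; field_simp
    have hI : ∀ᶠ s in 𝓝 (0 : ℝ), r s / r' s ∈ Ioo (0 : ℝ) 1 :=
      hrc.eventually_mem (isOpen_Ioo.mem_nhds (by rw [hr00']; exact ht))
    filter_upwards [hI] with s hs
    have h1 : r s • u' s = (r s / r' s) • L (z s) y' := by
      simp only [hu', smul_smul, div_eq_mul_inv]
    rw [h1, h.L_rev_pt (hzM s) hy' (Ioo_subset_Icc_self hs)]
  have hfin := hLq.unique ((hratio.smul hLz).congr_of_eventuallyEq hev)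
  -- conclusion
  have hone : (1 - r 0 / r' 0) = 1 - t := by
    rw [hr00, hr0']; field_simp
  rw [hone, hz0] at hfin
  generalize hcdef : -((fderiv ℝ (fun w => rho g L w y) p ξ * r' 0 -
    r 0 * fderiv ℝ (fun w => rho g L w y') p ξ) / r' 0 ^ 2) = c at hfin
  have hD := congrArg (fderiv ℝ (e y') (L y' p)) hfin
  have hcomp : ∀ v, fderiv ℝ (e y') (L y' p) (fderiv ℝ (L y') p v) = v := fun v =>
    congrArg (fun f : E →L[ℝ] E => f v) (h.D_comp hy' hpM)
  rw [map_zero, map_add, map_smul, map_smul, hcomp, h.De_L hy' hpM] at hD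
  have hin := congrArg (inner ℝ p) hD
  rw [inner_zero_right, inner_add_right, inner_smul_right, inner_smul_right, hξ, mul_zero,
    zero_add, inner_neg_right] at hin
  have hLin := h.L_inward hp hy' hpy'
  have hc0 : c = 0 := by
    rcases mul_eq_zero.1 hin.symm with h1 | h1
    · exact h1
    · linarith
  rw [hc0, zero_smul, add_zero] at hD
  have h1t : (1 - t) ≠ 0 := by linarith [ht.2]
  exact (smul_ne_zero h1t hξ0) hD.symm

end Simple

end Pool.Agent.W5h72.BR
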