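import Pool.Agent.H85.BR.Hess

/-!
# Focal points
-/

open Set Metric Filter Topology
open scoped ContDiff RealInnerProductSpace

noncomputable section

namespace Pool.Agent.W5h72.BR

variable {E : Type*} [NormedAddCommGroup E] [InnerProductSpace ℝ E]

/-- `y` is a focal point of `p`: the Hessians at `p` of the distance from `y` (for `g'`) and the
distance from `x` (for `g`), on the boundary, have a degenerate difference -/
def Focal (g g' : E → E →L[ℝ] E →L[ℝ] ℝ) (L L' : E → E → E) (x p y : E) : Prop :=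
  ∃ ξ : E, ξ ≠ 0 ∧ inner ℝ p ξ = 0 ∧ ∀ ζ, Simple.Q g' L' p y ξ ζ = Simple.Q g L p x ξ ζ

namespace Simple

variable {g g' : E → E →L[ℝ] E →L[ℝ] ℝ} {e L e' L' : E → E → E}

lemma Q_symm (h : Simple g e L) {p y : E} (hp : p ∈ sphere (0 : E) 1)
    (hy : y ∈ closedBall (0 : E) 1) (hpy : y ≠ p) (v w : E) :
    Q g L p y v w = Q g L p y w v :=
  symm_snd (h.contDiffAt_rho_proj' hy (ne_zero_of_mem_sphere' hp)
    (by rwa [proj_of_mem hp])) v w

variable [FiniteDimensional ℝ E]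

/-- the focal points on a geodesic do not fill an interval -/
lemma no_focal_interval (h : Simple g e L) (h' : Simple g' e' L') {x p y1 : E}
    (hx : ‖x‖ < 1) (hp : p ∈ sphere (0 : E) 1) (hy1 : y1 ∈ closedBall (0 : E) 1)
    (hpy1 : p ≠ y1) {a b : ℝ} (ha : 0 < a) (hab : a < b) (hb : b < 1)
    (hF : ∀ t ∈ Icc a b, Focal g g' L L' x p (e' p (t • L' p y1))) : False := by
  have hpM := mem_of_sphere hp
  have hxM := mem_of_norm_lt hx
  have key : ∀ k : ℕ, ∀ t ∈ Ioc a b, ∃ W : Submodule ℝ E, k ≤ Module.finrank ℝ W ∧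
      ∀ v ∈ W, inner ℝ p v = 0 ∧
        Q g' L' p (e' p (t • L' p y1)) v v ≤ Q g L p x v v := by
    intro k
    induction k with
    | zero =>
      intro t ht
      refine ⟨⊥, Nat.zero_le _, fun v hv => ?_⟩
      rw [Submodule.mem_bot] at hv
      subst hv
      simp
    | succ k ih =>
      intro t ht
      set t' := (a + t) / 2 with ht'
      have h1 : a < t' := by rw [ht']; linarith [ht.1]
      have h2 : t' < t := by rw [ht']; linarith [ht.1]
      obtain ⟨W, hW1, hW2⟩ := ih t' ⟨h1, by linarith [ht.2]⟩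
      have ht0 : 0 < t := by linarith [ht.1]
      have ht1 : t < 1 := by linarith [ht.2]
      have htI : t ∈ Icc (0 : ℝ) 1 := ⟨ht0.le, ht1.le⟩
      have hyt : ‖e' p (t • L' p y1)‖ < 1 := h'.pt_interior hpM hy1 hpy1 ⟨ht0, ht1⟩
      have hLt := h'.L_pt hpM hy1 htI
      obtain ⟨ξ, hξ0, hξp, hξ⟩ := hF t ⟨ht.1.le, ht.2⟩
      have hlt : ∀ v, v ≠ 0 → inner ℝ p v = 0 →
          Q g' L' p (e' p (t • L' p y1)) v v < Q g' L' p (e' p (t' • L' p y1)) v v := by
        intro v hv hpv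
        refine h'.Q_lt hp (mem_of_norm_lt hyt) (ne_of_sphere hyt hp).symm (t := t' / t)
          ⟨by positivity, (div_lt_one ht0).2 h2⟩ ?_ hpv hv
        rw [hLt, smul_smul, div_mul_cancel₀ _ ht0.ne']
      have hξW : ξ ∉ W := by
        intro hmem
        have h3 := (hW2 ξ hmem).2
        have h4 := hlt ξ hξ0 hξp
        rw [hξ ξ] at h4
        linarith
      refine ⟨W ⊔ Submodule.span ℝ {ξ}, ?_, ?_⟩
      · have h5 : W < W ⊔ Submodule.span ℝ {ξ} := by
          refine lt_of_le_of_ne le_sup_left fun heq => hξW ?_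
          rw [heq]
          exact Submodule.mem_sup_right (Submodule.mem_span_singleton_self ξ)
        have h6 := Submodule.finrank_lt_finrank_of_lt h5
        omega
      · intro v' hv'
        obtain ⟨v, hv, s, hs, rfl⟩ := Submodule.mem_sup.1 hv'
        obtain ⟨c, rfl⟩ := Submodule.mem_span_singleton.1 hs
        obtain ⟨hv1, hv2⟩ := hW2 v hv
        refine ⟨by rw [inner_add_right, hv1, inner_smul_right, hξp, mul_zero, add_zero], ?_⟩
        have h7 : Q g' L' p (e' p (t • L' p y1)) v v ≤ Q g L p x v v := by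
          by_cases hv0 : v = 0
          · subst hv0; simp
          · exact (hlt v hv0 hv1).le.trans hv2
        have s1 := h'.Q_symm hp (mem_of_norm_lt hyt) (ne_of_sphere hyt hp) v ξ
        have s2 := h.Q_symm hp hxM (ne_of_sphere hx hp) v ξ
        simp only [map_add, map_smul, add_apply, smul_apply, smul_eq_mul]
        rw [s1, s2, hξ v, hξ ξ]
        linarith
  obtain ⟨W, hW, -⟩ := key (Module.finrank ℝ E + 1) b ⟨hab, le_rfl⟩
  have := Submodule.finrank_le W
  omega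

/-- the map whose zeros are the critical points -/
def Phi (g g' : E → E →L[ℝ] E →L[ℝ] ℝ) (L L' : E → E → E) (x : E) (w : E × E) : E →L[ℝ] ℝ :=
  fderiv ℝ (fun z => rho g' L' w.1 (proj z)) w.2 - fderiv ℝ (fun z => rho g L x (proj z)) w.2

omit [FiniteDimensional ℝ E] in
lemma Phi_strict (h : Simple g e L) (h' : Simple g' e' L') {x y p : E}
    (hx : ‖x‖ < 1) (hy : ‖y‖ < 1) (hp : p ∈ sphere (0 : E) 1) :
    ∃ D : E × E →L[ℝ] E →L[ℝ] ℝ, HasStrictFDerivAt (Phi g g' L L' x) D (y, p) ∧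
      ∀ v, D (0, v) = Q g' L' p y v - Q g L p x v := by
  have hp0 := ne_zero_of_mem_sphere' hp
  have hpp := proj_of_mem hp
  have c1 : ContDiffAt ℝ ∞ (fun w : (E × E) × E => rho g' L' w.1.1 (proj w.2)) ((y, p), p) := by
    have h1 := h'.contDiffAt_rho_proj (mem_of_norm_lt hy) hp0 (by rw [hpp]; exact ne_of_sphere hy hp)
    exact ContDiffAt.comp ((y, p), p) (f := fun w : (E × E) × E => (w.1.1, w.2)) h1
      ((contDiffAt_fst.comp _ contDiffAt_fst).prodMk contDiffAt_snd)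
  have c2 : ContDiffAt ℝ ∞ (fun w : (E × E) × E => rho g L x (proj w.2)) ((y, p), p) := by
    have h1 := h.contDiffAt_rho_proj' (mem_of_norm_lt hx) hp0 (by rw [hpp]; exact ne_of_sphere hx hp)
    exact ContDiffAt.comp ((y, p), p) (f := fun w : (E × E) × E => w.2) h1 contDiffAt_snd
  have d1 : ContDiffAt ℝ ∞ (fun w : E × E => fderiv ℝ (fun z => rho g' L' w.1 (proj z)) w.2)
      (y, p) :=
    ContDiffAt.fderiv (f := fun (w : E × E) (z : E) => rho g' L' w.1 (proj z))
      (g := fun w : E × E => w.2) c1 contDiffAt_snd (by simp)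
  have d2 : ContDiffAt ℝ ∞ (fun w : E × E => fderiv ℝ (fun z => rho g L x (proj z)) w.2)
      (y, p) :=
    ContDiffAt.fderiv (f := fun (w : E × E) (z : E) => rho g L x (proj z))
      (g := fun w : E × E => w.2) c2 contDiffAt_snd (by simp)
  have d3 : ContDiffAt ℝ ∞ (Phi g g' L L' x) (y, p) := d1.sub d2
  have hs := d3.hasStrictFDerivAt (by simp)
  refine ⟨_, hs, fun v => ?_⟩
  have e1 : HasFDerivAt (fun z => Phi g g' L L' x (y, z))
      ((fderiv ℝ (Phi g g' L L' x) (y, p)).comp (ContinuousLinearMap.inr ℝ E E)) p :=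
    HasFDerivAt.comp p (f := fun z => (y, z)) hs.hasFDerivAt (hasFDerivAt_prodMk_right y p)
  have k1 : DifferentiableAt ℝ (fderiv ℝ (fun z => rho g' L' y (proj z))) p :=
    ((h'.contDiffAt_rho_proj' (mem_of_norm_lt hy) hp0
      (by rw [hpp]; exact ne_of_sphere hy hp)).fderiv_right (m := ∞)
      (by simp)).differentiableAt (by simp)
  have k2 : DifferentiableAt ℝ (fderiv ℝ (fun z => rho g L x (proj z))) p :=
    ((h.contDiffAt_rho_proj' (mem_of_norm_lt hx) hp0
      (by rw [hpp]; exact ne_of_sphere hx hp)).fderiv_right (m := ∞)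
      (by simp)).differentiableAt (by simp)
  have e2 : HasFDerivAt (fun z => Phi g g' L L' x (y, z)) (Q g' L' p y - Q g L p x) p :=
    k1.hasFDerivAt.sub k2.hasFDerivAt
  have e3 := congrArg (fun f : E →L[ℝ] E →L[ℝ] ℝ => f v) (e1.unique e2)
  simpa using e3

/-- many pairs of critical points near `p` produce a kernel vector -/
lemma focal_of_pairs (h : Simple g e L) (h' : Simple g' e' L') {x y p : E}
    (hx : ‖x‖ < 1) (hy : ‖y‖ < 1) (hp : p ∈ sphere (0 : E) 1)
    (hpairs : ∀ δ > 0, ∃ y1 z1 z2 : E, ‖y1 - y‖ < δ ∧ ‖z1 - p‖ < δ ∧ ‖z2 - p‖ < δ ∧ z1 ≠ z2 ∧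
      inner ℝ p (z1 - z2) = 0 ∧ Phi g g' L L' x (y1, z1) = 0 ∧ Phi g g' L L' x (y1, z2) = 0) :
    Focal g g' L L' x p y := by
  obtain ⟨D, hD, hDv⟩ := h.Phi_strict h' hx hy hp
  by_contra hcon
  let T : E →ₗ[ℝ] (E →L[ℝ] ℝ) × ℝ :=
    (D.comp (ContinuousLinearMap.inr ℝ E E)).toLinearMap.prod (innerSL ℝ p).toLinearMap
  have hT : ∀ v, T v = (D (0, v), inner ℝ p v) := fun v => rfl
  have hinj : LinearMap.ker T = ⊥ := by
    rw [LinearMap.ker_eq_bot']
    intro v hv
    by_contra hv0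
    rw [hT, Prod.mk_eq_zero] at hv
    refine hcon ⟨v, hv0, hv.2, fun ζ => ?_⟩
    have h1 := hv.1
    rw [hDv, sub_eq_zero] at h1
    rw [h1]
  obtain ⟨K, hK0, hK⟩ := LinearMap.exists_antilipschitzWith T hinj
  have hK0' : (0 : ℝ) < K := hK0
  have hb := hD.isLittleO.def (c := 1 / (2 * K)) (by positivity)
  obtain ⟨δ, hδ, hball⟩ := Metric.eventually_nhds_iff.1 hb
  obtain ⟨y1, z1, z2, hy1, hz1, hz2, hne, hin, hP1, hP2⟩ := hpairs δ hδ
  have h1 := @hball ((y1, z1), (y1, z2)) (by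
    rw [Prod.dist_eq, Prod.dist_eq, Prod.dist_eq]
    simp only [dist_eq_norm]
    exact max_lt (max_lt hy1 hz1) (max_lt hy1 hz2))
  simp only [hP1, hP2, sub_self, zero_sub, norm_neg, Prod.mk_sub_mk] at h1
  have h2 : ‖((0 : E), z1 - z2)‖ = ‖z1 - z2‖ := by
    rw [Prod.norm_def]; simp
  rw [h2] at h1
  have h3 : ‖z1 - z2‖ ≤ K * ‖T (z1 - z2)‖ := by
    have := hK.le_mul_dist (z1 - z2) 0
    simpa using this
  have h4 : ‖T (z1 - z2)‖ ≤ 1 / (2 * K) * ‖z1 - z2‖ := by
    rw [hT, hin, Prod.norm_def]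
    simp only [norm_zero]
    exact max_le h1 (by positivity)
  have h5 : 0 < ‖z1 - z2‖ := norm_pos_iff.2 (sub_ne_zero.2 hne)
  have h6 : K * ‖T (z1 - z2)‖ ≤ K * (1 / (2 * K) * ‖z1 - z2‖) :=
    mul_le_mul_of_nonneg_left h4 hK0'.le
  have h7 : (K : ℝ) * (1 / (2 * K) * ‖z1 - z2‖) = ‖z1 - z2‖ / 2 := by
    field_simp
  rw [h7] at h6
  linarith

end Simple

end Pool.Agent.W5h72.BR
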