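import Pool.Agent.H85.BR.Cross

/-!
# From pairwise intersections to concurrency
-/

open Set Metric Filter Topology
open scoped ContDiff RealInnerProductSpace

noncomputable section

namespace Pool.Agent.W5h72.BR

variable {E : Type*} [NormedAddCommGroup E] [InnerProductSpace ℝ E]

namespace Simple

variable {g g' : E → E →L[ℝ] E →L[ℝ] ℝ} {e L e' L' : E → E → E}

lemma continuous_rho (h : Simple g e L) (w : E) : Continuous fun y => rho g L w y := by
  have h1 : Continuous (L w) := (h.L_smooth_right w).continuous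
  exact (((g w).continuous.comp h1).clm_apply h1).sqrt

variable [FiniteDimensional ℝ E]

/-- the crossing points are focal -/
lemma focal_cross (h : Simple g e L) (h' : Simple g' e' L') (hn : 2 < Module.finrank ℝ E)
    (hd : ∀ p ∈ sphere (0 : E) 1, ∀ q ∈ sphere (0 : E) 1, rho g L p q = rho g' L' p q)
    {x w p : E} (hx : ‖x‖ < 1) (hI : Meet g g' x) (hw : w ∈ sphere (0 : E) 1)
    (hp : p ∈ Dom g x w) : Focal g g' L L' x p (cross g g' x w p) := by
  have hpS := hp.1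
  have hpn := norm_of_sphere hpS
  obtain ⟨hg1, hg2⟩ := hI.spec hpS hw
  have hyb := h.cross_interior h' hx hg1 hg2 hp
  refine h.focal_of_pairs h' hx hyb hpS fun δ hδ => ?_
  obtain ⟨ξ1, hξ1, hξ1p⟩ := exists_orth (lt_trans one_lt_two hn) p
  obtain ⟨ξ2, hξ2, hξ2p, hξ12⟩ := exists_orth2 hn p ξ1
  obtain ⟨r, hr, hwr, hxr⟩ := h.exists_exit hw hx
  -- the geodesic of `w` for `g'`
  have hGamw : ∀ y, Gam g g' x w y → y ∈ seg g' w r := by
    rintro y ⟨-, r2, hr2, hxr2, hy⟩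
    rwa [h.exit_uniq hw hr hr2 (ne_of_sphere hx hw) hxr hxr2]
  -- `Dom` is open in the sphere
  have hDom : ∀ p' ∈ sphere (0 : E) 1, p' ≠ w → p' ≠ r → p' ∈ Dom g x w := by
    intro p' hp' h1 h2
    refine ⟨hp', h1, fun h3 => h2 ?_⟩
    rw [seg_symm] at h3
    exact h.exit_uniq hw hp' hr (ne_of_sphere hx hw) h3 hxr
  have hpr : p ≠ r := by
    rintro rfl
    exact hp.2.2 (by rw [seg_symm]; exact hxr)
  have hev1 : ∀ᶠ p' in 𝓝 p, p' ≠ w ∧ p' ≠ r :=
    (isOpen_ne.eventually_mem hp.2.1).and (isOpen_ne.eventually_mem hpr)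
  obtain ⟨δ2, hδ2, hball2⟩ := Metric.eventually_nhds_iff.1 hev1
  have hcont := h.cross_cont h' hx hI hw
  obtain ⟨δ1, hδ1, hball1⟩ := Metric.continuousWithinAt_iff.1 (hcont p hp) δ hδ
  set ε : ℝ := min (min δ δ1) δ2 / 4 with hε
  have hε0 : 0 < ε := by positivity
  have hmin0 : 0 < min (min δ δ1) δ2 := by positivity
  have hεδ : ε < δ := by
    have : min (min δ δ1) δ2 ≤ δ := (min_le_left _ _).trans (min_le_left _ _)
    rw [hε]; linarith
  have hεδ1 : 2 * ε < δ1 := by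
    have : min (min δ δ1) δ2 ≤ δ1 := (min_le_left _ _).trans (min_le_right _ _)
    rw [hε]; linarith
  have hεδ2 : 2 * ε < δ2 := by
    have : min (min δ δ1) δ2 ≤ δ2 := min_le_right _ _
    rw [hε]; linarith
  set v : ℝ → E := fun θ => Real.cos θ • ξ1 + Real.sin θ • ξ2 with hv
  have hvc : Continuous v :=
    (Real.continuous_cos.smul continuous_const).add (Real.continuous_sin.smul continuous_const)
  have hvp : ∀ θ, inner ℝ p (v θ) = 0 := by
    intro θ
    simp only [hv, inner_add_right, inner_smul_right, hξ1p, hξ2p, mul_zero, add_zero]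
  have hvn : ∀ θ, ‖v θ‖ = 1 := by
    intro θ
    have h1 : ‖v θ‖ ^ 2 = 1 := by
      simp only [hv]
      rw [norm_add_sq_real, norm_smul, norm_smul, hξ1, hξ2, inner_smul_left, inner_smul_right,
        hξ12]
      simp only [Real.norm_eq_abs, mul_one, sq_abs, mul_zero, add_zero]
      exact Real.cos_sq_add_sin_sq θ
    nlinarith [norm_nonneg (v θ)]
  have hvπ : ∀ θ, v (θ + Real.pi) = - v θ := by
    intro θ
    simp only [hv, Real.cos_add_pi, Real.sin_add_pi, neg_smul, neg_add]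
  have hne : ∀ θ, p + ε • v θ ≠ 0 := by
    intro θ h0
    have : inner ℝ p (p + ε • v θ) = 1 := by
      rw [inner_add_right, inner_smul_right, hvp, real_inner_self_eq_norm_sq, hpn]
      norm_num
    rw [h0] at this
    simp at this
  set c : ℝ → E := fun θ => proj (p + ε • v θ) with hc
  have hcS : ∀ θ, c θ ∈ sphere (0 : E) 1 := fun θ => proj_mem (hne θ)
  have hcp : ∀ θ, ‖c θ - p‖ ≤ 2 * ε := by
    intro θ
    have := norm_proj_sub hpn (hne θ)
    rwa [norm_smul, hvn, mul_one, Real.norm_eq_abs, abs_of_pos hε0] at this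
  have hcD : ∀ θ, c θ ∈ Dom g x w := by
    intro θ
    have h1 := @hball2 (c θ) (by rw [dist_eq_norm]; exact (hcp θ).trans_lt hεδ2)
    exact hDom _ (hcS θ) h1.1 h1.2
  have hcc : Continuous c := by
    have h1 : Continuous fun θ => p + ε • v θ := continuous_const.add (hvc.const_smul ε)
    rw [continuous_iff_continuousAt]
    intro θ
    exact ContinuousAt.comp (f := fun θ => p + ε • v θ) (contDiffAt_proj (hne θ)).continuousAt
      h1.continuousAt
  have hYc : Continuous fun θ => cross g g' x w (c θ) := hcont.comp_continuous hcc hcD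
  set k : ℝ → ℝ := fun θ => rho g' L' w (cross g g' x w (c θ)) with hk
  have hkc : Continuous k := (h'.continuous_rho w).comp hYc
  have hc2 : ∀ θ, c (θ + Real.pi + Real.pi) = c θ := by
    intro θ
    simp only [hc, hvπ, neg_neg]
  have hKc : Continuous fun θ => k θ - k (θ + Real.pi) :=
    hkc.sub (hkc.comp (continuous_id.add continuous_const))
  have hk2 : k (0 + Real.pi + Real.pi) = k 0 := by
    simp only [hk, hc2]
  obtain ⟨θ, hθ⟩ : ∃ θ, k θ - k (θ + Real.pi) = 0 := by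
    have : (0 : ℝ) ∈ range fun θ => k θ - k (θ + Real.pi) := by
      rcases le_total (k 0 - k (0 + Real.pi)) 0 with h1 | h1
      · refine mem_range_of_exists_le_of_exists_ge hKc ⟨0, h1⟩ ⟨0 + Real.pi, ?_⟩
        rw [hk2]; linarith
      · refine mem_range_of_exists_le_of_exists_ge hKc ⟨0 + Real.pi, ?_⟩ ⟨0, h1⟩
        rw [hk2]; linarith
    exact this
  have hwM := mem_of_sphere hw
  have hrM := mem_of_sphere hr
  have hYeq : cross g g' x w (c θ) = cross g g' x w (c (θ + Real.pi)) := by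
    have h1 := (hI.spec (hcS θ) hw).2
    have h2 := (hI.spec (hcS (θ + Real.pi)) hw).2
    obtain ⟨t1, ht1, hy1⟩ := (h'.mem_seg hwM hrM).1 (hGamw _ h1)
    obtain ⟨t2, ht2, hy2⟩ := (h'.mem_seg hwM hrM).1 (hGamw _ h2)
    have h3 : k θ = k (θ + Real.pi) := sub_eq_zero.1 hθ
    simp only [hk] at h3
    rw [hy1, hy2, h'.rho_pt hwM hrM ht1, h'.rho_pt hwM hrM ht2] at h3
    have h4 : t1 = t2 := mul_right_cancel₀ (h'.rho_pos hwM hrM hwr).ne' h3
    rw [hy1, hy2, h4]
  have hYb : ‖cross g g' x w (c θ)‖ < 1 := by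
    obtain ⟨a1, a2⟩ := hI.spec (hcS θ) hw
    exact h.cross_interior h' hx a1 a2 (hcD θ)
  refine ⟨cross g g' x w (c θ), p + ε • v θ, p + ε • v (θ + Real.pi), ?_, ?_, ?_, ?_, ?_, ?_, ?_⟩
  · have := hball1 (hcD θ) (by rw [dist_eq_norm]; exact (hcp θ).trans_lt hεδ1)
    rwa [dist_eq_norm] at this
  · rw [add_sub_cancel_left, norm_smul, hvn, mul_one, Real.norm_eq_abs, abs_of_pos hε0]
    exact hεδ
  · rw [add_sub_cancel_left, norm_smul, hvn, mul_one, Real.norm_eq_abs, abs_of_pos hε0]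
    exact hεδ
  · intro h0
    rw [hvπ, smul_neg] at h0
    have h1 := add_left_cancel h0
    have h2 : (2 * ε) • v θ = 0 := by
      rw [two_mul, add_smul]
      nth_rw 1 [h1]
      simp
    rcases smul_eq_zero.1 h2 with h3 | h3
    · linarith
    · have := hvn θ
      rw [h3, norm_zero] at this
      norm_num at this
  · rw [inner_sub_right, inner_add_right, inner_add_right, inner_smul_right, inner_smul_right,
      hvp, hvp]
    ring
  · exact h.Phi_zero h' hd hx hYb (hne θ) (hI.spec (hcS θ) hw).1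
  · refine h.Phi_zero h' hd hx hYb (hne _) ?_
    have := (hI.spec (hcS (θ + Real.pi)) hw).1
    rwa [← hYeq] at this

/-- **pairwise intersections imply concurrency** -/
theorem conc_of_meet (h : Simple g e L) (h' : Simple g' e' L') (hn : 2 < Module.finrank ℝ E)
    (hd : ∀ p ∈ sphere (0 : E) 1, ∀ q ∈ sphere (0 : E) 1, rho g L p q = rho g' L' p q)
    {x : E} (hx : ‖x‖ < 1) (hI : Meet g g' x) :
    ∃ x' ∈ closedBall (0 : E) 1, Conc g g' x x' := by
  obtain ⟨p, hp⟩ : ∃ p : E, p ∈ sphere (0 : E) 1 := by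
    obtain ⟨ξ, hξ, -⟩ := exists_orth (lt_trans one_lt_two hn) (0 : E)
    exact ⟨ξ, by simpa using hξ⟩
  obtain ⟨q, hq, hpq, hxq⟩ := h.exists_exit hp hx
  have hpM := mem_of_sphere hp
  have hqM := mem_of_sphere hq
  have hxp := ne_of_sphere hx hp
  set A : Set E := {w : E | w ∈ sphere (0 : E) 1 ∧ w ≠ p ∧ w ≠ q} with hA
  have hApre : IsPreconnected A := preconn hn hp hq hpq
  -- `A` is the domain of the crossing map
  have hADom : ∀ w ∈ A, w ∈ Dom g x p := by
    rintro w ⟨hw, hwp, hwq⟩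
    refine ⟨hw, hwp, fun h1 => hwq ?_⟩
    rw [seg_symm] at h1
    exact h.exit_uniq hp hw hq hxp h1 hxq
  have hpDom : ∀ w ∈ A, p ∈ Dom g x w := by
    intro w hw
    obtain ⟨h1, h2, h3⟩ := hADom w hw
    exact ⟨hp, h2.symm, fun h4 => h3 (by rw [seg_symm]; exact h4)⟩
  set Y : E → E := cross g g' x p with hY
  have hYc : ContinuousOn Y A := (h.cross_cont h' hx hI hp).mono hADom
  have hGp : ∀ y, Gam g g' x p y → y ∈ seg g' p q := by
    rintro y ⟨-, r2, hr2, hxr2, hy⟩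
    rwa [h.exit_uniq hp hq hr2 hxp hxq hxr2]
  have hYspec : ∀ w ∈ A, Gam g g' x w (Y w) ∧ Gam g g' x p (Y w) ∧ ‖Y w‖ < 1 ∧
      Focal g g' L L' x p (Y w) := by
    intro w hw
    obtain ⟨h1, h2⟩ := hI.spec hw.1 hp
    refine ⟨h1, h2, h.cross_interior h' hx h1 h2 (hADom w hw), ?_⟩
    have h3 := h.focal_cross h' hn hd hx hI hw.1 (hpDom w hw)
    obtain ⟨h4, h5⟩ := hI.spec hp hw.1
    have h6 : cross g g' x w p = Y w :=
      h.cross_unique h' hx h5 h4 h1 h2 (hADom w hw)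
    rwa [h6] at h3
  have hr0 := h'.rho_pos hpM hqM hpq
  set T : E → ℝ := fun w => rho g' L' p (Y w) / rho g' L' p q with hT
  have hTc : ContinuousOn T A :=
    ((h'.continuous_rho p).comp_continuousOn hYc).div_const _
  have hTspec : ∀ w ∈ A, T w ∈ Ioo (0 : ℝ) 1 ∧ Y w = e' p (T w • L' p q) := by
    intro w hw
    obtain ⟨-, h2, h3, -⟩ := hYspec w hw
    obtain ⟨t, ht, hy⟩ := (h'.mem_seg hpM hqM).1 (hGp _ h2)
    have h4 : T w = t := by
      simp only [hT]
      rw [hy, h'.rho_pt hpM hqM ht, mul_div_assoc, div_self hr0.ne', mul_one]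
    rw [h4]
    refine ⟨⟨lt_of_le_of_ne ht.1 ?_, lt_of_le_of_ne ht.2 ?_⟩, hy⟩
    · rintro rfl
      rw [zero_smul, h'.e_zero hpM] at hy
      rw [hy] at h3
      have := norm_of_sphere hp
      linarith
    · rintro rfl
      rw [one_smul, h'.e_L hpM hqM] at hy
      rw [hy] at h3
      have := norm_of_sphere hq
      linarith
  have hTlt : ∀ w1 ∈ A, ∀ w2 ∈ A, ¬ T w1 < T w2 := by
    intro w1 hw1 w2 hw2 hlt
    refine h.no_focal_interval h' hx hp hqM hpq (hTspec w1 hw1).1.1 hlt (hTspec w2 hw2).1.2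
      fun t ht => ?_
    obtain ⟨w, hw, hwt⟩ := hApre.intermediate_value hw1 hw2 hTc ht
    rw [← hwt, ← (hTspec w hw).2]
    exact (hYspec w hw).2.2.2
  have hconst : ∀ w1 ∈ A, ∀ w2 ∈ A, Y w1 = Y w2 := by
    intro w1 hw1 w2 hw2
    have : T w1 = T w2 := le_antisymm (not_lt.1 (hTlt w2 hw2 w1 hw1))
      (not_lt.1 (hTlt w1 hw1 w2 hw2))
    rw [(hTspec w1 hw1).2, (hTspec w2 hw2).2, this]
  -- a point of `A`
  obtain ⟨w0, hw0⟩ : A.Nonempty := by
    obtain ⟨η, hη, hηp, hηq⟩ := exists_orth2 hn p q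
    refine ⟨η, by simpa using hη, ?_, ?_⟩
    · rintro rfl
      rw [real_inner_self_eq_norm_sq, hη] at hηp
      norm_num at hηp
    · rintro rfl
      rw [real_inner_self_eq_norm_sq, hη] at hηq
      norm_num at hηq
  obtain ⟨-, hG0, hb0, -⟩ := hYspec w0 hw0
  refine ⟨Y w0, mem_of_norm_lt hb0, ?_⟩
  intro a ha b hb hxab
  have hxa := ne_of_sphere hx ha
  have hseg := hGp _ hG0
  by_cases hap : a = p
  · subst hap
    rw [h.exit_uniq ha hb hq hxa hxab hxq]
    exact hseg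
  by_cases haq : a = q
  · subst haq
    have h1 : x ∈ seg g a p := by rw [seg_symm]; exact hxq
    rw [h.exit_uniq ha hb hp hxa hxab h1, seg_symm]
    exact hseg
  have haA : a ∈ A := ⟨ha, hap, haq⟩
  obtain ⟨⟨-, q', hq', hxq', hyq'⟩, -⟩ := hYspec a haA
  rw [hconst w0 hw0 a haA, h.exit_uniq ha hb hq' hxa hxab hxq']
  exact hyq'

/-- **Main theorem** (explicit exponential maps) -/
theorem isometry_of_meet (h : Simple g e L) (h' : Simple g' e' L')
    (hn : 2 < Module.finrank ℝ E)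
    (hd : ∀ p ∈ sphere (0 : E) 1, ∀ q ∈ sphere (0 : E) 1, gdist g p q = gdist g' p q)
    (hI : ∀ p ∈ sphere (0 : E) 1, ∀ q ∈ sphere (0 : E) 1, ∀ r ∈ sphere (0 : E) 1,
      ∀ s ∈ sphere (0 : E) 1, (seg g p q ∩ seg g r s).Nonempty →
        (seg g' p q ∩ seg g' r s).Nonempty) :
    ∃ ψ χ : E → E, ContDiff ℝ ∞ ψ ∧ ContDiff ℝ ∞ χ ∧
      (∀ x ∈ closedBall (0 : E) 1, ψ x ∈ closedBall (0 : E) 1 ∧ χ (ψ x) = x) ∧
      (∀ y ∈ closedBall (0 : E) 1, χ y ∈ closedBall (0 : E) 1 ∧ ψ (χ y) = y) ∧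
      (∀ p ∈ sphere (0 : E) 1, ψ p = p) ∧
      ∀ x ∈ closedBall (0 : E) 1, ∀ v w,
        g' (ψ x) (fderiv ℝ ψ x v) (fderiv ℝ ψ x w) = g x v w := by
  have hd' : ∀ p ∈ sphere (0 : E) 1, ∀ q ∈ sphere (0 : E) 1, rho g L p q = rho g' L' p q := by
    intro p hp q hq
    rw [← h.gdist_eq (mem_of_sphere hp) (mem_of_sphere hq),
      ← h'.gdist_eq (mem_of_sphere hp) (mem_of_sphere hq), hd p hp q hq]
  refine h.isometry_of_conc h' (lt_trans one_lt_two hn) hd' fun x hx => ?_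
  refine h.conc_of_meet h' hn hd' hx fun p hp w hw => ?_
  obtain ⟨q, hq, -, hxq⟩ := h.exists_exit hp hx
  obtain ⟨r, hr, -, hxr⟩ := h.exists_exit hw hx
  obtain ⟨y, hy1, hy2⟩ := hI p hp q hq w hw r hr ⟨x, hxq, hxr⟩
  exact ⟨y, ⟨hp, q, hq, hxq, hy1⟩, ⟨hw, r, hr, hxr, hy2⟩⟩

end Simple

end Pool.Agent.W5h72.BR
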